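import Pool.Agent.W76.MO.Asm6

/-!
# Completely multiplicative extension of a function on the primes
-/

set_option autoImplicit false

namespace Pool.Agent.X115.CMO

open Finset
open Pool.Agent.W76.MO

/-- the completely multiplicative function with the values `f p` at the primes -/
noncomputable def Fc (f : ℕ → ℝ) (n : ℕ) : ℝ := (n.primeFactorsList.map f).prod

lemma Fc_one (f : ℕ → ℝ) : Fc f 1 = 1 := by simp [Fc]

lemma Fc_prime (f : ℕ → ℝ) (p : ℕ) (hp : p.Prime) : Fc f p = f p := by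
  simp [Fc, Nat.primeFactorsList_prime hp]

lemma Fc_mul (f : ℕ → ℝ) (m n : ℕ) (hm : m ≠ 0) (hn : n ≠ 0) :
    Fc f (m * n) = Fc f m * Fc f n := by
  unfold Fc
  have h := Nat.perm_primeFactorsList_mul hm hn
  rw [(h.map f).prod_eq, List.map_append, List.prod_append]

lemma Fc_sq_mul (f : ℕ → ℝ) (k s : ℕ) (hk : k ≠ 0) (hs : s ≠ 0) :
    Fc f (k ^ 2 * s) = Fc f k ^ 2 * Fc f s := by
  rw [Fc_mul f _ _ (pow_ne_zero 2 hk) hs, pow_two, Fc_mul f k k hk hk, pow_two]

lemma Fc_sq (f : ℕ → ℝ) (k : ℕ) (hk : k ≠ 0) : Fc f (k ^ 2) = Fc f k ^ 2 := by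
  rw [pow_two, Fc_mul f k k hk hk, pow_two]

lemma Fc_squarefree (f : ℕ → ℝ) (n : ℕ) (hn : Squarefree n) :
    Fc f n = ∏ p ∈ n.primeFactors, f p := by
  unfold Fc
  have h1 : n.primeFactorsList.Nodup := (Nat.squarefree_iff_nodup_primeFactorsList hn.ne_zero).1 hn
  unfold Nat.primeFactors
  rw [List.prod_toFinset f h1]

/-- list estimate -/
lemma list_est (f f' x g : ℕ → ℝ) (ε : ℝ) (hε : 0 ≤ ε) (L : List ℕ)
    (hx : ∀ p ∈ L, 0 ≤ x p) (hg : ∀ p ∈ L, 0 ≤ g p)
    (h1 : ∀ p ∈ L, |f p| ≤ x p + g p) (h1' : ∀ p ∈ L, |f' p| ≤ x p + g p)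
    (h2 : ∀ p ∈ L, |f p - f' p| ≤ ε * g p) :
    |(L.map f).prod| ≤ (L.map (fun p => x p + g p)).prod ∧
    |(L.map f').prod| ≤ (L.map (fun p => x p + g p)).prod ∧
    (L.map (fun p => x p + g p)).prod ≤ (L.map (fun p => x p + 2 * g p)).prod ∧
    |(L.map f).prod - (L.map f').prod| ≤
      ε * ((L.map (fun p => x p + 2 * g p)).prod - (L.map (fun p => x p + g p)).prod) := by
  induction L with
  | nil => simp
  | cons a L ih =>
    obtain ⟨i1, i1', i2, i3⟩ := ih (fun p hp => hx p (List.mem_cons_of_mem _ hp))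
      (fun p hp => hg p (List.mem_cons_of_mem _ hp))
      (fun p hp => h1 p (List.mem_cons_of_mem _ hp)) (fun p hp => h1' p (List.mem_cons_of_mem _ hp))
      (fun p hp => h2 p (List.mem_cons_of_mem _ hp))
    have xa := hx a List.mem_cons_self
    have ga := hg a List.mem_cons_self
    have fa := h1 a List.mem_cons_self
    have fa' := h1' a List.mem_cons_self
    have da := h2 a List.mem_cons_self
    simp only [List.map_cons, List.prod_cons]
    set A := (L.map f).prod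
    set A' := (L.map f').prod
    set B := (L.map (fun p => x p + g p)).prod
    set C := (L.map (fun p => x p + 2 * g p)).prod
    have hB : 0 ≤ B := (abs_nonneg _).trans i1
    have hC : 0 ≤ C := hB.trans i2
    have hxg : 0 ≤ x a + g a := add_nonneg xa ga
    refine ⟨?_, ?_, ?_, ?_⟩
    · rw [abs_mul]
      exact mul_le_mul fa i1 (abs_nonneg _) hxg
    · rw [abs_mul]
      exact mul_le_mul fa' i1' (abs_nonneg _) hxg
    · exact mul_le_mul (by linarith) i2 hB (by linarith)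
    · have e : f a * A - f' a * A' = (f a - f' a) * A + f' a * (A - A') := by ring
      rw [e]
      refine (abs_add_le _ _).trans ?_
      rw [abs_mul, abs_mul]
      have t1 : |f a - f' a| * |A| ≤ (ε * g a) * B :=
        mul_le_mul da i1 (abs_nonneg _) (mul_nonneg hε ga)
      have t2 : |f' a| * |A - A'| ≤ (x a + g a) * (ε * (C - B)) :=
        mul_le_mul fa' i3 (abs_nonneg _) hxg
      have t3 : 0 ≤ ε * (g a * (C - B)) := mul_nonneg hε (mul_nonneg ga (by linarith))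
      calc |f a - f' a| * |A| + |f' a| * |A - A'|
          ≤ (ε * g a) * B + (x a + g a) * (ε * (C - B)) := add_le_add t1 t2
        _ ≤ ε * ((x a + 2 * g a) * C - (x a + g a) * B) := by nlinarith

lemma list_pow (β : ℝ) (L : List ℕ) :
    (L.map (fun p : ℕ => (p : ℝ) ^ β)).prod = ((L.prod : ℕ) : ℝ) ^ β := by
  induction L with
  | nil => simp
  | cons a L ih =>
    simp only [List.map_cons, List.prod_cons, ih]
    rw [Nat.cast_mul, Real.mul_rpow (Nat.cast_nonneg _) (Nat.cast_nonneg _)]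

lemma list_mono (u v : ℕ → ℝ) (L : List ℕ) (hu : ∀ p ∈ L, 0 ≤ u p) (h : ∀ p ∈ L, u p ≤ v p) :
    0 ≤ (L.map u).prod ∧ (L.map u).prod ≤ (L.map v).prod := by
  induction L with
  | nil => simp
  | cons a L ih =>
    obtain ⟨i0, i1⟩ := ih (fun p hp => hu p (List.mem_cons_of_mem _ hp))
      (fun p hp => h p (List.mem_cons_of_mem _ hp))
    simp only [List.map_cons, List.prod_cons]
    have ha := hu a List.mem_cons_self
    have hb := h a List.mem_cons_self
    exact ⟨mul_nonneg ha i0, mul_le_mul hb i1 i0 (ha.trans hb)⟩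

/-- bounds for completely multiplicative functions -/
lemma Fc_bound (f f' g : ℕ → ℝ) (ε β : ℝ) (hε : 0 ≤ ε)
    (hg : ∀ p : ℕ, p.Prime → 0 ≤ g p)
    (h1 : ∀ p : ℕ, p.Prime → |f p| ≤ 1 / (p : ℝ) + g p)
    (h1' : ∀ p : ℕ, p.Prime → |f' p| ≤ 1 / (p : ℝ) + g p)
    (h2 : ∀ p : ℕ, p.Prime → |f p - f' p| ≤ ε * g p)
    (h3 : ∀ p : ℕ, p.Prime → 1 / (p : ℝ) + 2 * g p ≤ (p : ℝ) ^ (-1 + β)) (n : ℕ) (hn : n ≠ 0) :
    |Fc f n| ≤ (n : ℝ) ^ (-1 + β) ∧ |Fc f n - Fc f' n| ≤ ε * (n : ℝ) ^ (-1 + β) := by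
  have hp : ∀ p ∈ n.primeFactorsList, p.Prime := fun p hp => Nat.prime_of_mem_primeFactorsList hp
  obtain ⟨i1, _, i2, i3⟩ := list_est f f' (fun p => 1 / (p : ℝ)) g ε hε n.primeFactorsList
    (fun p _ => div_nonneg zero_le_one (Nat.cast_nonneg p)) (fun p hm => hg p (hp p hm)) (fun p hm => h1 p (hp p hm))
    (fun p hm => h1' p (hp p hm)) (fun p hm => h2 p (hp p hm))
  have hm := list_mono (fun p : ℕ => 1 / (p : ℝ) + 2 * g p) (fun p : ℕ => (p : ℝ) ^ (-1 + β))
    n.primeFactorsList (fun p hm => by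
      have h4 := hg p (hp p hm)
      have h5 : (0 : ℝ) ≤ 1 / (p : ℝ) := div_nonneg zero_le_one (Nat.cast_nonneg p)
      show (0 : ℝ) ≤ 1 / (p : ℝ) + 2 * g p
      linarith) (fun p hm => h3 p (hp p hm))
  rw [list_pow, Nat.prod_primeFactorsList hn] at hm
  have hm0 := list_mono (fun p : ℕ => 1 / (p : ℝ) + g p) (fun p : ℕ => 1 / (p : ℝ) + g p)
    n.primeFactorsList (fun p hm => by
      have h4 := hg p (hp p hm)
      have h5 : (0 : ℝ) ≤ 1 / (p : ℝ) := by positivity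
      show (0 : ℝ) ≤ 1 / (p : ℝ) + g p
      linarith) (fun p hm => le_rfl)
  unfold Fc
  refine ⟨i1.trans (i2.trans hm.2), i3.trans (mul_le_mul_of_nonneg_left ?_ hε)⟩
  linarith [hm.2, hm0.1]

/-- decomposition `n = k ^ 2 s` with `s` squarefree -/
lemma sum_sq_decomp (h : ℕ → ℝ) (N : ℕ) :
    ∑ n ∈ Icc 1 N, h n = ∑ k ∈ Icc 1 N, ∑ s ∈ (Icc 1 (N / k ^ 2)).filter Squarefree,
      h (k ^ 2 * s) := by
  classical
  rw [sum_sigma']
  symm
  refine sum_bij (fun (x : (_ : ℕ) × ℕ) _ => x.1 ^ 2 * x.2) ?_ ?_ ?_ ?_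
  · rintro ⟨k, s⟩ hx
    simp only [mem_sigma, mem_Icc, mem_filter] at hx ⊢
    obtain ⟨⟨hk1, _⟩, ⟨hs1, hs2⟩, _⟩ := hx
    refine ⟨Nat.mul_pos (by positivity) hs1, ?_⟩
    calc k ^ 2 * s ≤ k ^ 2 * (N / k ^ 2) := Nat.mul_le_mul_left _ hs2
      _ ≤ N := Nat.mul_div_le _ _
  · rintro ⟨k, s⟩ hx ⟨k', s'⟩ hx' he
    simp only [mem_sigma, mem_Icc, mem_filter] at hx hx' he
    obtain ⟨⟨hk1, _⟩, ⟨hs1, hs2⟩, hsq⟩ := hx
    obtain ⟨⟨hk1', _⟩, ⟨hs1', hs2'⟩, hsq'⟩ := hx'
    -- uniqueness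
    have key : ∀ a b c d : ℕ, a ≠ 0 → b ≠ 0 → c ≠ 0 → d ≠ 0 → Squarefree b → Squarefree d →
        a ^ 2 * b = c ^ 2 * d → a = c := by
      intro a b c d ha hb hc hd hbs hds hE
      have hfac : a.factorization = c.factorization := by
        ext p
        have e : (a ^ 2 * b).factorization p = (c ^ 2 * d).factorization p := by rw [hE]
        rw [Nat.factorization_mul (pow_ne_zero 2 ha) hb, Nat.factorization_mul (pow_ne_zero 2 hc) hd,
          Nat.factorization_pow, Nat.factorization_pow] at e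
        simp only [Finsupp.add_apply, Finsupp.smul_apply, smul_eq_mul] at e
        have hb1 : b.factorization p ≤ 1 := hbs.natFactorization_le_one p
        have hd1 : d.factorization p ≤ 1 := hds.natFactorization_le_one p
        omega
      exact Nat.eq_of_factorization_eq ha hc fun p => by rw [hfac]
    have hkk : k = k' := key k s k' s' (by omega) (by omega) (by omega) (by omega) hsq hsq' he
    subst hkk
    have : s = s' := Nat.eq_of_mul_eq_mul_left (by positivity) he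
    subst this
    rfl
  · intro n hn
    rw [mem_Icc] at hn
    obtain ⟨s, k, hs0, hk0, he, hsq⟩ := Nat.sq_mul_squarefree_of_pos (show 0 < n by omega)
    refine ⟨⟨k, s⟩, ?_, he⟩
    simp only [mem_sigma, mem_Icc, mem_filter]
    have hk2 : 0 < k ^ 2 := by positivity
    have h1 : k ≤ n := by
      calc k ≤ k ^ 2 := Nat.le_self_pow (by norm_num) k
        _ ≤ k ^ 2 * s := Nat.le_mul_of_pos_right _ hs0
        _ = n := he
    refine ⟨⟨hk0, h1.trans hn.2⟩, ⟨hs0, ?_⟩, hsq⟩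
    rw [Nat.le_div_iff_mul_le hk2, mul_comm, he]
    exact hn.2
  · rintro ⟨k, s⟩ _
    rfl

end Pool.Agent.X115.CMO
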