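import Pool.Agent.X115.CMO.Fin

/-!
# The final bound and the CMO function
-/

set_option autoImplicit false

namespace Pool.Agent.X115.CMO

open Finset Filter Topology
open Pool.Agent.W76.MO
open scoped Classical

variable {E : Env}

/-- the sum over the square parts -/
lemma Sol2.sum_le {R j : ℕ} {z y : ℕ × ℕ → ℝ} (h : Sol2 E R j z y) (C : ℝ) (hC : 0 < C)
    (hb : ∀ N : ℕ, 1 ≤ N → |SE E j R z y N| ≤ C * (N : ℝ) ^ (-(1 / 2 : ℝ) - E.δ / 2))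
    (i N : ℕ) (hi : j < i) (hi10 : 10 ≤ i) (hN : 2 ^ i < N) (hN2 : N ≤ 2 ^ (i + 1)) :
    |∑ k ∈ Icc 2 (2 ^ (i + 1)), ph j i N k * (FF E j R z k ^ 2 * SE E j R z y (N / k ^ 2))| ≤
      4 * C * (N : ℝ) ^ (-(1 / 2 : ℝ) - E.δ / 2) * (2 : ℝ) ^ (19 / 100 * E.δ * i) * (i + 2) := by
  have hδ := E.hδ
  have hδ1 := delta_le E
  have hN0 : (0 : ℝ) < N := by exact_mod_cast (by omega : 0 < N)
  have hterm : ∀ k ∈ Icc 2 (2 ^ (i + 1)),
      |ph j i N k * (FF E j R z k ^ 2 * SE E j R z y (N / k ^ 2))| ≤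
      if k ≤ K0 (i + 1) then (2 * C * (N : ℝ) ^ (-(1 / 2 : ℝ) - E.δ / 2) *
        (2 * (2 : ℝ) ^ (19 / 100 * E.δ * i))) * (1 / (k : ℝ)) else 0 := by
    intro k hk
    rw [mem_Icc] at hk
    have hk1 : 1 ≤ k := by omega
    have hk0 : (0 : ℝ) < k := by exact_mod_cast hk1
    have hkr : (1 : ℝ) ≤ k := by exact_mod_cast hk1
    split_ifs with hK
    · obtain ⟨r0, r1⟩ := ph_range j i N k hN.le hN2
      have hkk : 0 < k ^ 2 := by positivity
      -- `k ^ 2 ≤ N`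
      have hk2 : k ^ 2 ≤ N := by
        have h1 : k ^ 2 ≤ 2 ^ (2 * ((i + 1) / 100)) := by
          unfold K0 at hK
          calc k ^ 2 ≤ (2 ^ ((i + 1) / 100)) ^ 2 := Nat.pow_le_pow_left hK 2
            _ = 2 ^ (2 * ((i + 1) / 100)) := by rw [← pow_mul]; congr 1; ring
        have h2 : 2 ^ (2 * ((i + 1) / 100)) ≤ 2 ^ i := Nat.pow_le_pow_right (by norm_num) (by omega)
        exact (h1.trans h2).trans hN.le
      have hm1 : 1 ≤ N / k ^ 2 := Nat.div_pos hk2 hkk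
      have hSE := hb (N / k ^ 2) hm1
      have hm : (N : ℝ) / (2 * (k : ℝ) ^ 2) ≤ ((N / k ^ 2 : ℕ) : ℝ) := by
        have h3 : N < k ^ 2 * (N / k ^ 2 + 1) := Nat.lt_mul_div_succ N hkk
        have h4 : (N : ℝ) < (k : ℝ) ^ 2 * (((N / k ^ 2 : ℕ) : ℝ) + 1) := by exact_mod_cast h3
        have h5 : (1 : ℝ) ≤ ((N / k ^ 2 : ℕ) : ℝ) := by exact_mod_cast hm1
        rw [div_le_iff₀ (by positivity)]
        have h6 : (0 : ℝ) < (k : ℝ) ^ 2 := by positivity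
        nlinarith
      have h7 : ((N / k ^ 2 : ℕ) : ℝ) ^ (-(1 / 2 : ℝ) - E.δ / 2) ≤
          (N : ℝ) ^ (-(1 / 2 : ℝ) - E.δ / 2) * (2 * (k : ℝ) ^ (1 + E.δ)) := by
        have h8 : ((N / k ^ 2 : ℕ) : ℝ) ^ (-(1 / 2 : ℝ) - E.δ / 2) ≤
            ((N : ℝ) / (2 * (k : ℝ) ^ 2)) ^ (-(1 / 2 : ℝ) - E.δ / 2) :=
          Real.rpow_le_rpow_of_nonpos (by positivity) hm (by linarith)
        refine h8.trans ?_
        rw [Real.div_rpow hN0.le (by positivity), div_eq_mul_inv, ← Real.rpow_neg (by positivity)]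
        apply mul_le_mul_of_nonneg_left _ (by positivity)
        rw [Real.mul_rpow (by norm_num) (by positivity), ← Real.rpow_natCast (k : ℝ) 2,
          ← Real.rpow_mul hk0.le]
        have e1 : ((2 : ℕ) : ℝ) * (-(-(1 / 2 : ℝ) - E.δ / 2)) = 1 + E.δ := by push_cast; ring
        rw [e1]
        apply mul_le_mul_of_nonneg_right _ (by positivity)
        calc (2 : ℝ) ^ (-(-(1 / 2 : ℝ) - E.δ / 2)) ≤ (2 : ℝ) ^ (1 : ℝ) :=
              Real.rpow_le_rpow_of_exponent_le (by norm_num) (by linarith)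
          _ = 2 := Real.rpow_one 2
      have hF := (FF_bound E j R h.prime z z 0 le_rfl h.z1 h.z1 (fun x => by simp) k (by omega)).1
      have hF2 : |FF E j R z k ^ 2| ≤ (k : ℝ) ^ (-2 + 18 * E.δ) := by
        rw [abs_pow]
        calc |FF E j R z k| ^ 2 ≤ ((k : ℝ) ^ (-1 + 9 * E.δ)) ^ 2 :=
              pow_le_pow_left₀ (abs_nonneg _) hF 2
          _ = (k : ℝ) ^ (-2 + 18 * E.δ) := by
              rw [← Real.rpow_natCast, ← Real.rpow_mul hk0.le]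
              congr 1
              push_cast
              ring
      have h9 : |SE E j R z y (N / k ^ 2)| ≤
          C * ((N : ℝ) ^ (-(1 / 2 : ℝ) - E.δ / 2) * (2 * (k : ℝ) ^ (1 + E.δ))) :=
        hSE.trans (mul_le_mul_of_nonneg_left h7 hC.le)
      have h10 : (k : ℝ) ^ (-2 + 18 * E.δ) * (k : ℝ) ^ (1 + E.δ) ≤
          (1 / k) * (2 * (2 : ℝ) ^ (19 / 100 * E.δ * i)) := by
        have e2 : (k : ℝ) ^ (-2 + 18 * E.δ) * (k : ℝ) ^ (1 + E.δ) = (1 / k) * (k : ℝ) ^ (19 * E.δ) := by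
          rw [← Real.rpow_add hk0, one_div, ← Real.rpow_neg_one, ← Real.rpow_add hk0]
          congr 1
          ring
        rw [e2]
        apply mul_le_mul_of_nonneg_left _ (by positivity)
        have h11 : (k : ℝ) ≤ (2 : ℝ) ^ (((i : ℝ) + 1) / 100) := by
          have h12 : (k : ℝ) ≤ ((2 ^ ((i + 1) / 100) : ℕ) : ℝ) := by
            unfold K0 at hK
            exact_mod_cast hK
          push_cast at h12
          rw [← Real.rpow_natCast] at h12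
          refine h12.trans (Real.rpow_le_rpow_of_exponent_le (by norm_num) ?_)
          have h13 : (((i + 1) / 100 : ℕ) : ℝ) ≤ ((i + 1 : ℕ) : ℝ) / ((100 : ℕ) : ℝ) := Nat.cast_div_le
          push_cast at h13
          exact h13
        calc (k : ℝ) ^ (19 * E.δ) ≤ ((2 : ℝ) ^ (((i : ℝ) + 1) / 100)) ^ (19 * E.δ) :=
              Real.rpow_le_rpow hk0.le h11 (by positivity)
          _ = (2 : ℝ) ^ (19 / 100 * E.δ) * (2 : ℝ) ^ (19 / 100 * E.δ * i) := by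
              rw [← Real.rpow_mul (by norm_num), ← Real.rpow_add (by norm_num)]
              congr 1
              ring
          _ ≤ 2 * (2 : ℝ) ^ (19 / 100 * E.δ * i) := by
              apply mul_le_mul_of_nonneg_right _ (by positivity)
              calc (2 : ℝ) ^ (19 / 100 * E.δ) ≤ (2 : ℝ) ^ (1 : ℝ) :=
                    Real.rpow_le_rpow_of_exponent_le (by norm_num) (by linarith)
                _ = 2 := Real.rpow_one 2
      rw [abs_mul, abs_mul, abs_of_nonneg r0]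
      calc ph j i N k * (|FF E j R z k ^ 2| * |SE E j R z y (N / k ^ 2)|)
          ≤ 1 * ((k : ℝ) ^ (-2 + 18 * E.δ) *
            (C * ((N : ℝ) ^ (-(1 / 2 : ℝ) - E.δ / 2) * (2 * (k : ℝ) ^ (1 + E.δ))))) := by
            apply mul_le_mul r1 _ (by positivity) (by norm_num)
            exact mul_le_mul hF2 h9 (abs_nonneg _) (by positivity)
        _ = (2 * C * (N : ℝ) ^ (-(1 / 2 : ℝ) - E.δ / 2)) *
            ((k : ℝ) ^ (-2 + 18 * E.δ) * (k : ℝ) ^ (1 + E.δ)) := by ring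
        _ ≤ (2 * C * (N : ℝ) ^ (-(1 / 2 : ℝ) - E.δ / 2)) *
            ((1 / k) * (2 * (2 : ℝ) ^ (19 / 100 * E.δ * i))) :=
            mul_le_mul_of_nonneg_left h10 (by positivity)
        _ = _ := by ring
    · rw [ph_high j i N k hi (by omega)]
      simp
  refine (abs_sum_le_sum_abs _ _).trans ((sum_le_sum hterm).trans ?_)
  rw [← sum_filter, ← mul_sum]
  have hharm : ∑ k ∈ (Icc 2 (2 ^ (i + 1))).filter (fun k => k ≤ K0 (i + 1)), 1 / (k : ℝ) ≤ i + 2 := by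
    have h1 := Env.harm_le ((i + 1) / 100)
    refine le_trans (sum_le_sum_of_subset_of_nonneg ?_ fun k _ _ => by positivity) (h1.trans ?_)
    · intro k hk
      rw [mem_filter, mem_Icc] at hk
      rw [mem_Icc]
      unfold K0 at hk
      omega
    · have h2 : (i + 1) / 100 ≤ i + 1 := Nat.div_le_self _ _
      have h3 : (((i + 1) / 100 : ℕ) : ℝ) ≤ ((i + 1 : ℕ) : ℝ) := by exact_mod_cast h2
      push_cast at h3
      push_cast
      linarith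
  calc (2 * C * (N : ℝ) ^ (-(1 / 2 : ℝ) - E.δ / 2) * (2 * (2 : ℝ) ^ (19 / 100 * E.δ * i))) *
        ∑ k ∈ (Icc 2 (2 ^ (i + 1))).filter (fun k => k ≤ K0 (i + 1)), 1 / (k : ℝ)
      ≤ (2 * C * (N : ℝ) ^ (-(1 / 2 : ℝ) - E.δ / 2) * (2 * (2 : ℝ) ^ (19 / 100 * E.δ * i))) *
        (i + 2) := mul_le_mul_of_nonneg_left hharm (by positivity)
    _ = _ := by ring

/-- the exponent -/
theorem Sol2.bound {R j : ℕ} {z y : ℕ × ℕ → ℝ} (h : Sol2 E R j z y) : ∃ C : ℝ, 0 < C ∧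
    ∀ N : ℕ, 1 ≤ N → |SF E j R z N| ≤ C * (N : ℝ) ^ (-(1 / 2 : ℝ) - E.δ / 4) := by
  have hδ := E.hδ
  have hδ1 := delta_le E
  obtain ⟨C, hC, hb⟩ := h.SE_bound
  obtain ⟨J, hJ1, hJ⟩ := eventually_small (3 / 50 * E.δ) 3 (by positivity) 1
  -- `(i+2) 2^(19/100 δ i) ≤ (J+3) 2^(δ i/4)`
  have hpoly : ∀ i : ℕ, 1 ≤ i → (2 : ℝ) ^ (19 / 100 * E.δ * i) * (i + 2) ≤
      (J + 3) * (2 : ℝ) ^ (E.δ / 4 * i) := by
    intro i hi
    have hir : (1 : ℝ) ≤ i := by exact_mod_cast hi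
    have e : (2 : ℝ) ^ (19 / 100 * E.δ * i) = (2 : ℝ) ^ (-(3 / 50 * E.δ * i)) *
        (2 : ℝ) ^ (E.δ / 4 * i) := by
      rw [← Real.rpow_add (by norm_num)]
      congr 1
      ring
    rw [e]
    have h1 : (2 : ℝ) ^ (-(3 / 50 * E.δ * i)) * (i + 2) ≤ J + 3 := by
      rcases le_total J i with h2 | h2
      · have h3 := hJ i h2
        rw [pow_one] at h3
        have h4 : (0 : ℝ) < (2 : ℝ) ^ (-(3 / 50 * E.δ * i)) := by positivity
        have h5 : (0 : ℝ) ≤ J := Nat.cast_nonneg J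
        nlinarith
      · have h3 : (2 : ℝ) ^ (-(3 / 50 * E.δ * i)) ≤ 1 := by
          apply Real.rpow_le_one_of_one_le_of_nonpos (by norm_num)
          have : 0 ≤ 3 / 50 * E.δ * i := by positivity
          linarith
        have h4 : (i : ℝ) ≤ J := by exact_mod_cast h2
        have h5 : (0 : ℝ) < (2 : ℝ) ^ (-(3 / 50 * E.δ * i)) := by positivity
        nlinarith
    have h6 : (0 : ℝ) < (2 : ℝ) ^ (E.δ / 4 * i) := by positivity
    calc (2 : ℝ) ^ (-(3 / 50 * E.δ * i)) * (2 : ℝ) ^ (E.δ / 4 * i) * (i + 2)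
        = (2 : ℝ) ^ (-(3 / 50 * E.δ * i)) * (i + 2) * (2 : ℝ) ^ (E.δ / 4 * i) := by ring
      _ ≤ (J + 3) * (2 : ℝ) ^ (E.δ / 4 * i) := mul_le_mul_of_nonneg_right h1 h6.le
  set M : ℝ := ∑ n ∈ Icc 1 (2 ^ (j + 1)), |FF E j R z n| with hM
  have hM0 : 0 ≤ M := sum_nonneg fun _ _ => abs_nonneg _
  refine ⟨1 + C + 4 * C * (J + 3) + M * ((2 ^ (j + 1) : ℕ) : ℝ) ^ (1 / 2 + E.δ / 4), by positivity,
    fun N hN => ?_⟩
  have hN0 : (0 : ℝ) < N := by exact_mod_cast hN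
  have hN1 : (1 : ℝ) ≤ N := by exact_mod_cast hN
  have hA : 0 < (N : ℝ) ^ (-(1 / 2 : ℝ) - E.δ / 4) := by positivity
  rcases Nat.lt_or_ge (2 ^ (j + 1)) N with h1 | h1
  · have h1' : 2 ^ j < N := lt_of_le_of_lt (Nat.pow_le_pow_right (by norm_num) (Nat.le_succ j)) h1
    obtain ⟨_, _, _, _, _, h3, h4⟩ := locate E j N h1'
    have hi : j < Env.sc N := by
      have h5 : 2 ^ (j + 1) < 2 ^ (Env.sc N + 1) := h1.trans_le h4
      have h6 := (Nat.pow_lt_pow_iff_right (a := 2) (by norm_num)).1 h5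
      omega
    have hj10 := h.j10
    set i := Env.sc N with hi'
    have e := SF_eq (E := E) R j z y i N h4 hN
    have d1 := h.DD_le N h1'
    rw [← hi'] at d1
    have d2 := hb N hN
    have d3 := h.sum_le C hC hb i N hi (by omega) h3 h4
    have hw := Env.w_le E i N (by omega) h4 hN
    have h5 : (N : ℝ) ^ (-(1 / 2 : ℝ) - E.δ / 2) ≤ (N : ℝ) ^ (-(1 / 2 : ℝ) - E.δ / 4) :=
      Real.rpow_le_rpow_of_exponent_le hN1 (by linarith)
    have h6 : 4 * C * (N : ℝ) ^ (-(1 / 2 : ℝ) - E.δ / 2) * (2 : ℝ) ^ (19 / 100 * E.δ * i) * (i + 2) ≤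
        4 * C * (J + 3) * (N : ℝ) ^ (-(1 / 2 : ℝ) - E.δ / 4) := by
      have h7 := hpoly i (by omega)
      have h8 : (2 : ℝ) ^ (E.δ / 4 * i) ≤ (N : ℝ) ^ (E.δ / 4) := by
        have h9 : (2 : ℝ) ^ (i : ℝ) ≤ N := by
          rw [Real.rpow_natCast]
          exact_mod_cast h3.le
        calc (2 : ℝ) ^ (E.δ / 4 * i) = ((2 : ℝ) ^ (i : ℝ)) ^ (E.δ / 4) := by
              rw [← Real.rpow_mul (by norm_num)]; congr 1; ring
          _ ≤ (N : ℝ) ^ (E.δ / 4) := Real.rpow_le_rpow (by positivity) h9 (by positivity)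
      have h10 : (N : ℝ) ^ (-(1 / 2 : ℝ) - E.δ / 2) * (N : ℝ) ^ (E.δ / 4) =
          (N : ℝ) ^ (-(1 / 2 : ℝ) - E.δ / 4) := by
        rw [← Real.rpow_add hN0]
        congr 1
        ring
      have hJ0 : (0 : ℝ) ≤ J := Nat.cast_nonneg J
      calc 4 * C * (N : ℝ) ^ (-(1 / 2 : ℝ) - E.δ / 2) * (2 : ℝ) ^ (19 / 100 * E.δ * i) * (i + 2)
          = 4 * C * (N : ℝ) ^ (-(1 / 2 : ℝ) - E.δ / 2) *
            ((2 : ℝ) ^ (19 / 100 * E.δ * i) * (i + 2)) := by ring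
        _ ≤ 4 * C * (N : ℝ) ^ (-(1 / 2 : ℝ) - E.δ / 2) * ((J + 3) * (2 : ℝ) ^ (E.δ / 4 * i)) :=
            mul_le_mul_of_nonneg_left h7 (by positivity)
        _ ≤ 4 * C * (N : ℝ) ^ (-(1 / 2 : ℝ) - E.δ / 2) * ((J + 3) * (N : ℝ) ^ (E.δ / 4)) := by
            apply mul_le_mul_of_nonneg_left _ (by positivity)
            exact mul_le_mul_of_nonneg_left h8 (by positivity)
        _ = 4 * C * (J + 3) * ((N : ℝ) ^ (-(1 / 2 : ℝ) - E.δ / 2) * (N : ℝ) ^ (E.δ / 4)) := by ring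
        _ = _ := by rw [h10]
    rw [e]
    refine (abs_add_le _ _).trans ((add_le_add (abs_add_le _ _) le_rfl).trans ?_)
    have h11 : 0 ≤ M * ((2 ^ (j + 1) : ℕ) : ℝ) ^ (1 / 2 + E.δ / 4) * (N : ℝ) ^ (-(1 / 2 : ℝ) - E.δ / 4) := by
      positivity
    have h12 : C * (N : ℝ) ^ (-(1 / 2 : ℝ) - E.δ / 2) ≤ C * (N : ℝ) ^ (-(1 / 2 : ℝ) - E.δ / 4) :=
      mul_le_mul_of_nonneg_left h5 hC.le
    have h13 : E.w i / 8 ≤ (N : ℝ) ^ (-(1 / 2 : ℝ) - E.δ / 4) := by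
      have : 0 < (N : ℝ) ^ (-(1 / 2 : ℝ) - E.δ / 2) := by positivity
      linarith
    calc _ ≤ E.w i / 8 + C * (N : ℝ) ^ (-(1 / 2 : ℝ) - E.δ / 2) +
          4 * C * (N : ℝ) ^ (-(1 / 2 : ℝ) - E.δ / 2) * (2 : ℝ) ^ (19 / 100 * E.δ * i) * (i + 2) :=
          add_le_add (add_le_add d1 d2) d3
      _ ≤ _ := by
          have e3 : (1 + C + 4 * C * (J + 3) + M * ((2 ^ (j + 1) : ℕ) : ℝ) ^ (1 / 2 + E.δ / 4)) *
              (N : ℝ) ^ (-(1 / 2 : ℝ) - E.δ / 4) = (N : ℝ) ^ (-(1 / 2 : ℝ) - E.δ / 4) +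
              C * (N : ℝ) ^ (-(1 / 2 : ℝ) - E.δ / 4) +
              4 * C * (J + 3) * (N : ℝ) ^ (-(1 / 2 : ℝ) - E.δ / 4) +
              M * ((2 ^ (j + 1) : ℕ) : ℝ) ^ (1 / 2 + E.δ / 4) * (N : ℝ) ^ (-(1 / 2 : ℝ) - E.δ / 4) := by
            ring
          rw [e3]
          linarith
  · have h2 : |SF E j R z N| ≤ M := by
      unfold SF
      refine (abs_sum_le_sum_abs _ _).trans ?_
      apply sum_le_sum_of_subset_of_nonneg
      · exact Icc_subset_Icc_right h1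
      · intro n _ _
        exact abs_nonneg _
    have h3 : 1 ≤ ((2 ^ (j + 1) : ℕ) : ℝ) ^ (1 / 2 + E.δ / 4) * (N : ℝ) ^ (-(1 / 2 : ℝ) - E.δ / 4) := by
      have h4 : (N : ℝ) ^ (1 / 2 + E.δ / 4) ≤ ((2 ^ (j + 1) : ℕ) : ℝ) ^ (1 / 2 + E.δ / 4) := by
        apply Real.rpow_le_rpow hN0.le (by exact_mod_cast h1)
        positivity
      have h5 : (N : ℝ) ^ (1 / 2 + E.δ / 4) * (N : ℝ) ^ (-(1 / 2 : ℝ) - E.δ / 4) = 1 := by
        rw [← Real.rpow_add hN0]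
        have : (1 / 2 + E.δ / 4) + (-(1 / 2 : ℝ) - E.δ / 4) = 0 := by ring
        rw [this, Real.rpow_zero]
      have h7 := mul_le_mul_of_nonneg_right h4 hA.le
      rw [h5] at h7
      exact h7
    have hJ0 : (0 : ℝ) ≤ J := Nat.cast_nonneg J
    calc |SF E j R z N| ≤ M * 1 := by rw [mul_one]; exact h2
      _ ≤ M * (((2 ^ (j + 1) : ℕ) : ℝ) ^ (1 / 2 + E.δ / 4) * (N : ℝ) ^ (-(1 / 2 : ℝ) - E.δ / 4)) :=
          mul_le_mul_of_nonneg_left h3 hM0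
      _ ≤ (1 + C + 4 * C * (J + 3) + M * ((2 ^ (j + 1) : ℕ) : ℝ) ^ (1 / 2 + E.δ / 4)) *
          (N : ℝ) ^ (-(1 / 2 : ℝ) - E.δ / 4) := by
          have h8 : 0 ≤ (1 + C + 4 * C * (J + 3)) * (N : ℝ) ^ (-(1 / 2 : ℝ) - E.δ / 4) := by positivity
          nlinarith

/-- the conclusion for completely multiplicative functions (real-valued) -/
def ConclR : Prop := ∃ f : ℕ → ℝ, f 1 = 1 ∧ (∀ m n : ℕ, 1 ≤ m → 1 ≤ n → f (m * n) = f m * f n) ∧
  ∃ β δ C : ℝ, 0 < δ ∧ 0 < C ∧ β < 1 / 100 ∧ 0 < β ∧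
    (∀ n : ℕ, 1 ≤ n → |f n| ≤ (n : ℝ) ^ (-1 + β)) ∧
    ∀ N : ℕ, 1 ≤ N → |∑ n ∈ Icc 1 N, f n| ≤ C * (N : ℝ) ^ (-(1 / 2 : ℝ) - δ)

theorem Sol2.concl {R j : ℕ} {z y : ℕ × ℕ → ℝ} (h : Sol2 E R j z y) : ConclR := by
  have hδ := E.hδ
  have hδ1 := delta_le E
  obtain ⟨C, hC, hb⟩ := h.bound
  refine ⟨FF E j R z, Fc_one _, fun m n hm hn => Fc_mul _ m n (by omega) (by omega),
    9 * E.δ, E.δ / 4, C, by positivity, hC, by linarith, by positivity, fun n hn => ?_, hb⟩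
  exact (FF_bound E j R h.prime z z 0 le_rfl h.z1 h.z1 (fun x => by simp) n (by omega)).1

theorem env_conclR (E : Env) (hHC : E.HCount) (hGB : E.GBounds) (hU : E.UPart) (hH : E.HPart)
    (hS : E.SPart) : ConclR := by
  obtain ⟨R, j, z, y, h⟩ := system2 E hGB hHC (E.key hGB hU hH hS)
  exact h.concl

end Pool.Agent.X115.CMO
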