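import Pool.Agent.X115.CMO.Est

/-!
# Cut-offs and the error functional
-/

set_option autoImplicit false

namespace Pool.Agent.X115.CMO

open Finset Filter Topology
open Pool.Agent.W76.MO

/-- cut-off of the square parts at scale `i` -/
def K0 (i : ℕ) : ℕ := 2 ^ (i / 100)

lemma K0_pos (i : ℕ) : 1 ≤ K0 i := Nat.one_le_two_pow

lemma K0_mono {i i' : ℕ} (h : i ≤ i') : K0 i ≤ K0 i' :=
  Nat.pow_le_pow_right (by norm_num) (Nat.div_le_div_right h)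

/-- cut-off weight at the points `2 ^ i` -/
noncomputable def Aw (j i k : ℕ) : ℝ := if i ≤ j then 1 else if k ≤ K0 i then 1 else 0

lemma Aw_mem (j i k : ℕ) : 0 ≤ Aw j i k ∧ Aw j i k ≤ 1 := by
  unfold Aw
  split_ifs <;> norm_num

lemma Aw_low (j i k : ℕ) (h : k ≤ K0 i) : Aw j i k = 1 := by
  unfold Aw
  split_ifs <;> rfl

lemma Aw_high (j i k : ℕ) (hj : j < i) (h : K0 i < k) : Aw j i k = 0 := by
  unfold Aw
  rw [if_neg (by omega), if_neg (by omega)]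

/-- cut-off weight, interpolated -/
noncomputable def ph (j i N k : ℕ) : ℝ :=
  Aw j i k + (Aw j (i + 1) k - Aw j i k) * (((N : ℝ) - 2 ^ i) / 2 ^ i)

lemma ph_low (j i N k : ℕ) (h : k ≤ K0 i) : ph j i N k = 1 := by
  unfold ph
  rw [Aw_low j i k h, Aw_low j (i + 1) k (h.trans (K0_mono (Nat.le_succ i)))]
  ring

lemma ph_high (j i N k : ℕ) (hj : j < i) (h : K0 (i + 1) < k) : ph j i N k = 0 := by
  unfold ph
  rw [Aw_high j i k hj ((K0_mono (Nat.le_succ i)).trans_lt h), Aw_high j (i + 1) k (by omega) h]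
  ring

lemma ph_start (j i k : ℕ) : ph j i (2 ^ i) k = Aw j i k := by
  unfold ph
  push_cast
  simp

lemma ph_end (j i k : ℕ) : ph j i (2 ^ (i + 1)) k = Aw j (i + 1) k := by
  unfold ph
  have h : ((((2 ^ (i + 1) : ℕ) : ℝ)) - 2 ^ i) / 2 ^ i = 1 := by
    push_cast
    rw [pow_succ]
    field_simp
    ring
  rw [h]
  ring

lemma ph_range (j i N k : ℕ) (h1 : 2 ^ i ≤ N) (h2 : N ≤ 2 ^ (i + 1)) :
    0 ≤ ph j i N k ∧ ph j i N k ≤ 1 := by
  have h3 : (0 : ℝ) < 2 ^ i := by positivity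
  have h4 : ((2 : ℝ) ^ i) ≤ N := by exact_mod_cast h1
  have h5 : (N : ℝ) ≤ 2 * 2 ^ i := by
    have : (N : ℝ) ≤ ((2 ^ (i + 1) : ℕ) : ℝ) := by exact_mod_cast h2
    push_cast at this
    rw [pow_succ] at this
    linarith
  have h6 : 0 ≤ ((N : ℝ) - 2 ^ i) / 2 ^ i := div_nonneg (by linarith) h3.le
  have h7 : ((N : ℝ) - 2 ^ i) / 2 ^ i ≤ 1 := by
    rw [div_le_one h3]; linarith
  obtain ⟨a0, a1⟩ := Aw_mem j i k
  obtain ⟨b0, b1⟩ := Aw_mem j (i + 1) k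
  unfold ph
  set t := ((N : ℝ) - 2 ^ i) / 2 ^ i
  constructor
  · nlinarith
  · nlinarith

lemma ph_diff (j i N a k : ℕ) (h : a ≤ N) :
    |ph j i N k - ph j i a k| ≤ ((N - a : ℕ) : ℝ) / 2 ^ i := by
  have h3 : (0 : ℝ) < 2 ^ i := by positivity
  have e : ph j i N k - ph j i a k = (Aw j (i + 1) k - Aw j i k) * (((N - a : ℕ) : ℝ) / 2 ^ i) := by
    unfold ph
    rw [Nat.cast_sub h]
    ring
  rw [e, abs_mul]
  have h4 : |Aw j (i + 1) k - Aw j i k| ≤ 1 := by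
    obtain ⟨a0, a1⟩ := Aw_mem j i k
    obtain ⟨b0, b1⟩ := Aw_mem j (i + 1) k
    rw [abs_le]
    constructor <;> linarith
  have h5 : 0 ≤ ((N - a : ℕ) : ℝ) / 2 ^ i := by positivity
  rw [abs_of_nonneg h5]
  nlinarith

/-- the error functional -/
noncomputable def Tf (j i a N : ℕ) (p h : ℕ → ℕ → ℝ) : ℝ :=
  ∑ k ∈ Icc 2 (2 ^ (i + 1)), (ph j i a k * ∑ n ∈ Ioc (a / k ^ 2) (N / k ^ 2), p k n +
    (1 - ph j i a k) * ∑ n ∈ Ioc (a / k ^ 2) (N / k ^ 2), h k n +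
    (ph j i N k - ph j i a k) * ∑ n ∈ Icc 1 (N / k ^ 2), (p k n - h k n))

/-- `D'` -/
noncomputable def Df (j i N : ℕ) (p h : ℕ → ℕ → ℝ) : ℝ :=
  ∑ k ∈ Icc 2 (2 ^ (i + 1)), (ph j i N k * ∑ n ∈ Icc 1 (N / k ^ 2), p k n +
    (1 - ph j i N k) * ∑ n ∈ Icc 1 (N / k ^ 2), h k n)

lemma sum_Icc_split (f : ℕ → ℝ) (a b : ℕ) (h : a ≤ b) :
    ∑ n ∈ Icc 1 b, f n = ∑ n ∈ Icc 1 a, f n + ∑ n ∈ Ioc a b, f n := by
  have h1 : Icc 1 b = Icc 1 a ∪ Ioc a b := by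
    ext n
    simp only [mem_Icc, mem_union, mem_Ioc]
    omega
  rw [h1, sum_union]
  rw [disjoint_left]
  intro n hn hn'
  rw [mem_Icc] at hn
  rw [mem_Ioc] at hn'
  omega

lemma Df_sub (j i a N : ℕ) (haN : a ≤ N) (p h : ℕ → ℕ → ℝ) :
    Df j i N p h - Df j i a p h = Tf j i a N p h := by
  unfold Df Tf
  rw [← sum_sub_distrib]
  refine sum_congr rfl fun k _ => ?_
  rw [sum_Icc_split (p k) _ _ (Nat.div_le_div_right haN), sum_Icc_split (h k) _ _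
    (Nat.div_le_div_right haN), sum_sub_distrib, sum_Icc_split (p k) _ _
    (Nat.div_le_div_right haN), sum_Icc_split (h k) _ _ (Nat.div_le_div_right haN)]
  ring

lemma Tf_sub (j i a N : ℕ) (p h p' h' : ℕ → ℕ → ℝ) :
    Tf j i a N p h - Tf j i a N p' h' =
      Tf j i a N (fun k n => p k n - p' k n) (fun k n => h k n - h' k n) := by
  unfold Tf
  rw [← sum_sub_distrib]
  refine sum_congr rfl fun k _ => ?_
  simp only [sum_sub_distrib]
  ring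

end Pool.Agent.X115.CMO
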