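import Pool.Agent.X115.CMO.Base

/-!
# Elementary estimates
-/

set_option autoImplicit false

namespace Pool.Agent.X115.CMO

open Finset Filter Topology
open Pool.Agent.W76.MO

/-- polynomial against exponential -/
lemma eventually_small (c C : ℝ) (hc : 0 < c) (m : ℕ) : ∃ J : ℕ, 1 ≤ J ∧ ∀ i : ℕ, J ≤ i →
    C * (i : ℝ) ^ m * (2 : ℝ) ^ (-(c * i)) ≤ 1 := by
  have hr0 : (0 : ℝ) ≤ (2 : ℝ) ^ (-c) := by positivity
  have hr1 : (2 : ℝ) ^ (-c) < 1 := Real.rpow_lt_one_of_one_lt_of_neg (by norm_num) (by linarith)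
  have h := tendsto_pow_const_mul_const_pow_of_lt_one m hr0 hr1
  have h2 := h.const_mul C
  rw [mul_zero] at h2
  obtain ⟨J, hJ⟩ := Filter.eventually_atTop.1 (h2.eventually_le_const (show (0 : ℝ) < 1 by norm_num))
  refine ⟨J + 1, by omega, fun i hi => ?_⟩
  have h3 := hJ i (by omega)
  have e : (2 : ℝ) ^ (-(c * i)) = ((2 : ℝ) ^ (-c)) ^ i := by
    rw [← Real.rpow_natCast, ← Real.rpow_mul (by norm_num)]
    congr 1
    ring
  rw [e]
  calc C * (i : ℝ) ^ m * ((2 : ℝ) ^ (-c)) ^ i = C * ((i : ℝ) ^ m * ((2 : ℝ) ^ (-c)) ^ i) := by ring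
    _ ≤ 1 := h3

/-- telescoping for `k^(-3/2)` -/
lemma tele (k : ℕ) (hk : 2 ≤ k) :
    1 / (Real.sqrt k) ^ 3 ≤ 2 * (1 / Real.sqrt ((k - 1 : ℕ) : ℝ) - 1 / Real.sqrt k) := by
  have hk1 : (1 : ℝ) ≤ ((k - 1 : ℕ) : ℝ) := by
    have : 1 ≤ k - 1 := by omega
    exact_mod_cast this
  have hkk : ((k - 1 : ℕ) : ℝ) = (k : ℝ) - 1 := by
    rw [Nat.cast_sub (by omega)]; norm_num
  set x := Real.sqrt ((k - 1 : ℕ) : ℝ) with hx
  set y := Real.sqrt (k : ℝ) with hy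
  have hx0 : 0 < x := Real.sqrt_pos.2 (by linarith)
  have hy0 : 0 < y := Real.sqrt_pos.2 (by linarith)
  have hx2 : x ^ 2 = (k : ℝ) - 1 := by rw [hx, Real.sq_sqrt (by linarith), hkk]
  have hy2 : y ^ 2 = (k : ℝ) := by rw [hy, Real.sq_sqrt (by linarith)]
  have hxy : x ≤ y := Real.sqrt_le_sqrt (by linarith)
  have h1 : (y - x) * (y + x) = 1 := by nlinarith
  rw [div_sub_div _ _ hx0.ne' hy0.ne', mul_div_assoc', div_le_div_iff₀ (by positivity) (by positivity)]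
  have h2 : 0 < y - x := by
    by_contra h
    push Not at h
    nlinarith
  -- `x y ≤ 2 (y - x) y^3`, since `1 = (y-x)(y+x) ≤ 2 y (y - x)`
  have h3 : 1 ≤ 2 * y * (y - x) := by nlinarith
  have h4 : x * y ≤ y * y := by nlinarith
  have h5 : y * y * 1 ≤ y * y * (2 * y * (y - x)) := mul_le_mul_of_nonneg_left h3 (by positivity)
  nlinarith

lemma sum_tail (K M : ℕ) (hK : 1 ≤ K) :
    ∑ k ∈ Ioc K M, 1 / (Real.sqrt k) ^ 3 ≤ 2 / Real.sqrt K := by
  have key : ∀ M : ℕ, K ≤ M → ∑ k ∈ Ioc K M, 1 / (Real.sqrt k) ^ 3 ≤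
      2 * (1 / Real.sqrt K - 1 / Real.sqrt M) := by
    intro M hM
    induction M, hM using Nat.le_induction with
    | base => simp
    | succ M hM ih =>
      rw [sum_Ioc_succ_top hM]
      have h := tele (M + 1) (by omega)
      rw [Nat.add_sub_cancel] at h
      linarith
  rcases le_total K M with h | h
  · refine (key M h).trans ?_
    have : 0 ≤ 1 / Real.sqrt M := by positivity
    rw [show (2 : ℝ) / Real.sqrt K = 2 * (1 / Real.sqrt K) by ring]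
    linarith
  · rw [Ioc_eq_empty (by omega), sum_empty]
    positivity

lemma rpow_le_tele (β : ℝ) (hβ : β ≤ 1 / 4) (k : ℕ) (hk : 1 ≤ k) :
    (k : ℝ) ^ (-2 + 2 * β) ≤ 1 / (Real.sqrt k) ^ 3 := by
  have hk1 : (1 : ℝ) ≤ k := by exact_mod_cast hk
  have e : 1 / (Real.sqrt k) ^ 3 = (k : ℝ) ^ (-(3 / 2) : ℝ) := by
    rw [Real.rpow_neg (by linarith), one_div]
    congr 1
    rw [Real.sqrt_eq_rpow, ← Real.rpow_natCast, ← Real.rpow_mul (by linarith)]
    norm_num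
  rw [e]
  exact Real.rpow_le_rpow_of_exponent_le hk1 (by linarith)

lemma sum_tail_rpow (β : ℝ) (hβ : β ≤ 1 / 4) (K M : ℕ) (hK : 1 ≤ K) :
    ∑ k ∈ Ioc K M, (k : ℝ) ^ (-2 + 2 * β) ≤ 2 / Real.sqrt K := by
  refine le_trans (sum_le_sum fun k hk => ?_) (sum_tail K M hK)
  rw [mem_Ioc] at hk
  exact rpow_le_tele β hβ k (by omega)

/-- number of multiples: `N/m - a/m ≤ (N-a)/m + 1` -/
lemma div_sub_div_le (a N m : ℕ) (haN : a ≤ N) (hm : 0 < m) :
    N / m - a / m ≤ (N - a) / m + 1 := by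
  obtain ⟨d, rfl⟩ := Nat.exists_eq_add_of_le haN
  rw [Nat.add_sub_cancel_left, Nat.add_div hm]
  generalize a / m = u
  generalize d / m = v
  split_ifs <;> omega

/-- counting pairs `(k, n)` with `a < k^2 n ≤ N`, `X < k` -/
lemma count_large (a N X M : ℕ) (haN : a ≤ N) (hX : 1 ≤ X) (hsq : (N - a) ^ 2 ≤ a) (ha : 1 ≤ a) :
    ∑ k ∈ Ioc X M, (N / k ^ 2 - a / k ^ 2) ≤ N / X ^ 2 := by
  classical
  have h1 : ∑ k ∈ Ioc X M, (N / k ^ 2 - a / k ^ 2) =
      ((Ioc X M).sigma (fun k => Ioc (a / k ^ 2) (N / k ^ 2))).card := by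
    rw [card_sigma]
    exact sum_congr rfl fun k _ => by rw [Nat.card_Ioc]
  rw [h1]
  have h2 : (Icc 1 (N / X ^ 2)).card = N / X ^ 2 := by rw [Nat.card_Icc, Nat.add_sub_cancel]
  rw [← h2]
  have hloc : ∀ k n : ℕ, 1 ≤ k → n ∈ Ioc (a / k ^ 2) (N / k ^ 2) → a < k ^ 2 * n ∧ k ^ 2 * n ≤ N := by
    intro k n hk hn
    rw [mem_Ioc] at hn
    have hk2 : 0 < k ^ 2 := by positivity
    refine ⟨?_, ?_⟩
    · have := (Nat.div_lt_iff_lt_mul hk2).1 hn.1
      rw [mul_comm]; exact this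
    · have := (Nat.le_div_iff_mul_le hk2).1 hn.2
      rw [mul_comm]; exact this
  apply Finset.card_le_card_of_injOn (fun x => x.2)
  · rintro ⟨k, n⟩ hx
    simp only [coe_sigma, Set.mem_sigma_iff, mem_coe] at hx
    obtain ⟨hk, hn⟩ := hx
    rw [mem_Ioc] at hk
    obtain ⟨h3, h4⟩ := hloc k n (by omega) hn
    simp only [coe_Icc, Set.mem_Icc]
    have hX2 : 0 < X ^ 2 := by positivity
    refine ⟨?_, ?_⟩
    · rw [mem_Ioc] at hn
      exact Nat.succ_le_of_lt (lt_of_le_of_lt (Nat.zero_le _) hn.1)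
    · rw [Nat.le_div_iff_mul_le hX2]
      have h5 : X ^ 2 ≤ k ^ 2 := Nat.pow_le_pow_left hk.1.le 2
      calc n * X ^ 2 ≤ n * k ^ 2 := Nat.mul_le_mul_left _ h5
        _ = k ^ 2 * n := mul_comm _ _
        _ ≤ N := h4
  · rintro ⟨k, n⟩ hx ⟨k', n'⟩ hx' he
    simp only [coe_sigma, Set.mem_sigma_iff, mem_coe] at hx hx' he
    subst he
    have key : ∀ k k' : ℕ, 1 ≤ k → k < k' → a < k ^ 2 * n → k' ^ 2 * n ≤ N → False := by
      intro k k' hk hkk h3 h4
      have h5 : (k + 1) ^ 2 ≤ k' ^ 2 := Nat.pow_le_pow_left hkk 2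
      have h6 : (k + 1) ^ 2 * n ≤ N := (Nat.mul_le_mul_right n h5).trans h4
      have h7 : (k + 1) ^ 2 * n = k ^ 2 * n + (2 * k + 1) * n := by ring
      have h8 : (2 * k + 1) * n ≤ N - a := by omega
      have h9 : ((2 * k + 1) * n) ^ 2 ≤ a := (Nat.pow_le_pow_left h8 2).trans hsq
      have hn1 : 1 ≤ n := by
        rcases Nat.eq_zero_or_pos n with h | h
        · rw [h] at h3; omega
        · exact h
      have h10 : k ^ 2 * n ≤ ((2 * k + 1) * n) ^ 2 := by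
        calc k ^ 2 * n ≤ (2 * k + 1) ^ 2 * n ^ 2 := by
              apply Nat.mul_le_mul
              · exact Nat.pow_le_pow_left (by omega) 2
              · exact Nat.le_self_pow (by norm_num) n
          _ = ((2 * k + 1) * n) ^ 2 := by ring
      omega
    rw [mem_Ioc] at hx hx'
    obtain ⟨h3, h4⟩ := hloc k n (by omega) hx.2
    obtain ⟨h3', h4'⟩ := hloc k' n (by omega) hx'.2
    rcases lt_trichotomy k k' with h | h | h
    · exact (key k k' (by omega) h h3 h4').elim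
    · subst h; rfl
    · exact (key k' k (by omega) h h3' h4).elim

end Pool.Agent.X115.CMO
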