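import Pool.Agent.X115.CMO.Sys

/-!
# Bounds for the partial sums
-/

set_option autoImplicit false

namespace Pool.Agent.X115.CMO

open Finset Filter Topology
open Pool.Agent.W76.MO
open scoped Classical

variable (E : Env)

/-- summatory function of the slopes -/
noncomputable def PP (j : ℕ) (y : ℕ × ℕ → ℝ) (N : ℕ) : ℝ := ∑ n ∈ Icc 1 N, sy E j y n

/-- difference of `SS` and its correction -/
noncomputable def SE (j R : ℕ) (z y : ℕ × ℕ → ℝ) (N : ℕ) : ℝ := E.SS R j z N - PP E j y N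

/-- partial sums of the completely multiplicative function -/
noncomputable def SF (j R : ℕ) (z : ℕ × ℕ → ℝ) (N : ℕ) : ℝ := ∑ n ∈ Icc 1 N, FF E j R z n

/-- `D` -/
noncomputable def DD (j R : ℕ) (z y : ℕ × ℕ → ℝ) (i N : ℕ) : ℝ :=
  PP E j y N + Df j i N (pp E j R z y) (hq E j R z)

lemma sum_sy_cell (j : ℕ) (y : ℕ × ℕ → ℝ) (i k : ℕ) (hi : j ≤ i) (hk : k < nc E.δ i) :
    ∑ n ∈ cell E.δ i k, sy E j y n = E.w i / 16 * y (i, k) ∧
    ∑ n ∈ cell E.δ i k, sg E j n = E.w i / 16 := by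
  have h1 : ∀ n ∈ cell E.δ i k, sg E j n = E.w i / (hh E.δ i : ℝ) / 16 ∧
      sy E j y n = E.w i / (hh E.δ i : ℝ) / 16 * y (i, k) := by
    intro n hn
    obtain ⟨h2, _, h3⟩ := cell_loc E.δ E.hδ i k n hk hn
    have h4 := cell_kx E i k n hk hn
    have h5 : 2 ^ j ≤ 2 ^ i := Nat.pow_le_pow_right (by norm_num) hi
    have h6 : sg E j n = E.w i / (hh E.δ i : ℝ) / 16 := by
      unfold sg
      rw [if_neg (by omega), h3]
    refine ⟨h6, ?_⟩
    unfold sy
    rw [h6, h3, h4]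
  have hcard : ((cell E.δ i k).card : ℝ) = hh E.δ i := by
    unfold cell
    rw [Nat.card_Ioc]
    have : 2 ^ i + (k + 1) * hh E.δ i - (2 ^ i + k * hh E.δ i) = hh E.δ i := by
      have : (k + 1) * hh E.δ i = k * hh E.δ i + hh E.δ i := by ring
      omega
    rw [this]
  have hpos : (hh E.δ i : ℝ) ≠ 0 := by
    have := hh_pos E.δ i
    exact_mod_cast this.ne'
  constructor
  · rw [sum_congr rfl fun n hn => (h1 n hn).2, sum_const, nsmul_eq_mul, hcard]
    field_simp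
  · rw [sum_congr rfl fun n hn => (h1 n hn).1, sum_const, nsmul_eq_mul, hcard]
    field_simp

lemma PP_add (j : ℕ) (y : ℕ × ℕ → ℝ) (M N : ℕ) (h : M ≤ N) :
    PP E j y N = PP E j y M + ∑ n ∈ Ioc M N, sy E j y n := by
  unfold PP
  exact sum_Icc_split _ M N h

lemma PP_first (j : ℕ) (y : ℕ × ℕ → ℝ) (N : ℕ) (hN : N ≤ 2 ^ j) : PP E j y N = 0 := by
  unfold PP
  refine sum_eq_zero fun n hn => ?_
  rw [mem_Icc] at hn
  unfold sy sg
  rw [if_pos (by omega), zero_mul]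

variable {E}

lemma Sol2.SE_cell {R j : ℕ} {z y : ℕ × ℕ → ℝ} (h : Sol2 E R j z y) (i : ℕ) (hi : j ≤ i)
    (h0 : SE E j R z y (2 ^ i) = 0) (k : ℕ) (hk : k ≤ nc E.δ i) :
    SE E j R z y (2 ^ i + k * hh E.δ i) = 0 := by
  induction k with
  | zero => simpa using h0
  | succ k ih =>
    have h1 := ih (by omega)
    have hle : 2 ^ i + k * hh E.δ i ≤ 2 ^ i + (k + 1) * hh E.δ i := by gcongr; omega
    unfold SE at h1 ⊢
    rw [E.SS_add R j z (2 ^ i + k * hh E.δ i) _ hle, PP_add E j y (2 ^ i + k * hh E.δ i) _ hle]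
    have h2 := E.sum_cell R j i k z
    have h3 := (sum_sy_cell E j y i k hi (by omega)).1
    unfold cell at h2 h3
    rw [h2, h3, h.cells i k hi (by omega)]
    linarith

lemma Sol2.SE_block {R j : ℕ} {z y : ℕ × ℕ → ℝ} (h : Sol2 E R j z y) (i : ℕ) (hi : j ≤ i) :
    SE E j R z y (2 ^ i) = 0 := by
  induction i, hi using Nat.le_induction with
  | base =>
    unfold SE
    rw [PP_first E j y (2 ^ j) le_rfl, sub_zero]
    unfold Env.SS Env.ff
    rw [← sum_filter]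
    exact h.first
  | succ i hi ih =>
    have h1 := h.SE_cell i hi ih (nc E.δ i) le_rfl
    rw [nc_mul E.δ E.hδ i] at h1
    rw [pow_succ, mul_two]
    exact h1

/-- location of `N` in a cell -/
lemma locate (E : Env) (j N : ℕ) (hN : 2 ^ j < N) : ∃ k : ℕ, k < nc E.δ (Env.sc N) ∧
    2 ^ (Env.sc N) + k * hh E.δ (Env.sc N) < N ∧
    N ≤ 2 ^ (Env.sc N) + (k + 1) * hh E.δ (Env.sc N) ∧ j ≤ Env.sc N ∧
    2 ^ Env.sc N < N ∧ N ≤ 2 ^ (Env.sc N + 1) := by
  have h2j : 0 < 2 ^ j := by positivity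
  obtain ⟨h1, h2⟩ := sc_spec N (by omega)
  set i := Env.sc N with hi
  have hji : j ≤ i := by
    by_contra hcon
    push Not at hcon
    have h3 : 2 ^ (i + 1) ≤ 2 ^ j := Nat.pow_le_pow_right (by norm_num) hcon
    omega
  have hpos := hh_pos E.δ i
  refine ⟨(N - 1 - 2 ^ i) / hh E.δ i, ?_, ?_, ?_, hji, h1, h2⟩
  · have h5 := nc_mul E.δ E.hδ i
    have h3 : (N - 1 - 2 ^ i) / hh E.δ i * hh E.δ i ≤ N - 1 - 2 ^ i := Nat.div_mul_le_self _ _
    have h6 : (N - 1 - 2 ^ i) / hh E.δ i * hh E.δ i < nc E.δ i * hh E.δ i := by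
      rw [h5]
      rw [pow_succ] at h2
      omega
    exact lt_of_mul_lt_mul_right h6 (Nat.zero_le _)
  · have h3 : (N - 1 - 2 ^ i) / hh E.δ i * hh E.δ i ≤ N - 1 - 2 ^ i := Nat.div_mul_le_self _ _
    omega
  · have h4 : N - 1 - 2 ^ i < hh E.δ i * ((N - 1 - 2 ^ i) / hh E.δ i + 1) :=
      Nat.lt_mul_div_succ (N - 1 - 2 ^ i) hpos
    rw [mul_comm] at h4
    omega

lemma Sol2.SE_le {R j : ℕ} {z y : ℕ × ℕ → ℝ} (h : Sol2 E R j z y) (N : ℕ) (hN : 2 ^ j < N) :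
    |SE E j R z y N| ≤ 5 * E.w (Env.sc N) := by
  obtain ⟨k, hk, h1, h2, hji, h3, h4⟩ := locate E j N hN
  set i := Env.sc N with hi
  have h0 := h.SE_cell i hji (h.SE_block i hji) k hk.le
  have e : SE E j R z y N = SE E j R z y (2 ^ i + k * hh E.δ i) +
      ∑ n ∈ Ioc (2 ^ i + k * hh E.δ i) N, (E.ff R j z n - sy E j y n) := by
    unfold SE
    rw [E.SS_add R j z (2 ^ i + k * hh E.δ i) N h1.le, PP_add E j y (2 ^ i + k * hh E.δ i) N h1.le,
      sum_sub_distrib]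
    ring
  rw [e, h0, zero_add]
  have hsub : Ioc (2 ^ i + k * hh E.δ i) N ⊆ cell E.δ i k := by
    intro n hn
    rw [mem_Ioc] at hn
    unfold cell
    rw [mem_Ioc]
    omega
  have hff : ∑ n ∈ cell E.δ i k, |E.ff R j z n| ≤ 4 * E.w i := by
    have h5 : ∑ n ∈ cell E.δ i k, |E.ff R j z n| = ∑ n ∈ E.cs R i k, |E.fz j z n| := by
      unfold Env.cs Env.ff
      rw [sum_filter]
      refine sum_congr rfl fun n _ => ?_
      split_ifs <;> simp
    rw [h5]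
    refine le_trans (sum_le_sum fun n hn => ?_) (h.key.mass_cell i k hji hk)
    unfold Env.cs at hn
    rw [mem_filter] at hn
    exact (E.fz_bound j n z z 0 h.key.u0 h.z1 h.z1 (fun x => by simp) hn.2.1).1
  have hw := E.w_nonneg i
  calc |∑ n ∈ Ioc (2 ^ i + k * hh E.δ i) N, (E.ff R j z n - sy E j y n)|
      ≤ ∑ n ∈ Ioc (2 ^ i + k * hh E.δ i) N, |E.ff R j z n - sy E j y n| := abs_sum_le_sum_abs _ _
    _ ≤ ∑ n ∈ cell E.δ i k, |E.ff R j z n - sy E j y n| :=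
        sum_le_sum_of_subset_of_nonneg hsub fun _ _ _ => abs_nonneg _
    _ ≤ ∑ n ∈ cell E.δ i k, (|E.ff R j z n| + sg E j n) := by
        refine sum_le_sum fun n _ => ?_
        have h5 := abs_sub (E.ff R j z n) (sy E j y n)
        have h6 := sy_bound E j y 1 h.y1 n
        linarith
    _ ≤ 4 * E.w i + E.w i / 16 := by
        rw [sum_add_distrib, (sum_sy_cell E j y i k hji hk).2]
        linarith
    _ ≤ 5 * E.w i := by linarith

theorem Sol2.SE_bound {R j : ℕ} {z y : ℕ × ℕ → ℝ} (h : Sol2 E R j z y) : ∃ C : ℝ, 0 < C ∧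
    ∀ N : ℕ, 1 ≤ N → |SE E j R z y N| ≤ C * (N : ℝ) ^ (-(1 / 2 : ℝ) - E.δ / 2) := by
  set M : ℝ := ∑ n ∈ Icc 1 (2 ^ j), |E.ff R j z n| with hM
  have hM0 : 0 ≤ M := sum_nonneg fun _ _ => abs_nonneg _
  have hδ := E.hδ
  refine ⟨10 + M * ((2 ^ j : ℕ) : ℝ) ^ (1 / 2 + E.δ / 2), by positivity, fun N hN => ?_⟩
  have hN0 : (0 : ℝ) < N := by exact_mod_cast hN
  rcases Nat.lt_or_ge (2 ^ j) N with h1 | h1
  · have h2 := h.SE_le N h1
    obtain ⟨_, _, _, _, h3, h4, h4'⟩ := locate E j N h1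
    have h5 := Env.w_le E (Env.sc N) N (by have := h.j10; omega) h4' hN
    have h6 : 0 < (N : ℝ) ^ (-(1 / 2 : ℝ) - E.δ / 2) := by positivity
    have h7 : 0 ≤ M * ((2 ^ j : ℕ) : ℝ) ^ (1 / 2 + E.δ / 2) := by positivity
    nlinarith
  · have h2 : |SE E j R z y N| ≤ M := by
      unfold SE
      rw [PP_first E j y N h1, sub_zero]
      unfold Env.SS
      refine (abs_sum_le_sum_abs _ _).trans ?_
      apply sum_le_sum_of_subset_of_nonneg
      · exact Icc_subset_Icc_right h1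
      · intro n _ _
        exact abs_nonneg _
    have h3 : 1 ≤ ((2 ^ j : ℕ) : ℝ) ^ (1 / 2 + E.δ / 2) * (N : ℝ) ^ (-(1 / 2 : ℝ) - E.δ / 2) := by
      have h4 : (N : ℝ) ^ (1 / 2 + E.δ / 2) ≤ ((2 ^ j : ℕ) : ℝ) ^ (1 / 2 + E.δ / 2) := by
        apply Real.rpow_le_rpow hN0.le (by exact_mod_cast h1)
        positivity
      have h5 : (N : ℝ) ^ (1 / 2 + E.δ / 2) * (N : ℝ) ^ (-(1 / 2 : ℝ) - E.δ / 2) = 1 := by
        rw [← Real.rpow_add hN0]
        have : (1 / 2 + E.δ / 2) + (-(1 / 2 : ℝ) - E.δ / 2) = 0 := by ring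
        rw [this, Real.rpow_zero]
      have h6 : 0 ≤ (N : ℝ) ^ (-(1 / 2 : ℝ) - E.δ / 2) := by positivity
      have h7 := mul_le_mul_of_nonneg_right h4 h6
      rw [h5] at h7
      exact h7
    have h6 : 0 < (N : ℝ) ^ (-(1 / 2 : ℝ) - E.δ / 2) := by positivity
    calc |SE E j R z y N| ≤ M * 1 := by rw [mul_one]; exact h2
      _ ≤ M * (((2 ^ j : ℕ) : ℝ) ^ (1 / 2 + E.δ / 2) * (N : ℝ) ^ (-(1 / 2 : ℝ) - E.δ / 2)) :=
          mul_le_mul_of_nonneg_left h3 hM0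
      _ ≤ (10 + M * ((2 ^ j : ℕ) : ℝ) ^ (1 / 2 + E.δ / 2)) * (N : ℝ) ^ (-(1 / 2 : ℝ) - E.δ / 2) := by
          nlinarith

/-- `D` vanishes at the end points of the cells -/
lemma DD_start (R j : ℕ) (z y : ℕ × ℕ → ℝ) : DD E j R z y j (2 ^ j) = 0 := by
  unfold DD Df
  rw [PP_first E j y (2 ^ j) le_rfl, zero_add]
  refine sum_eq_zero fun k hk => ?_
  rw [mem_Icc] at hk
  have h1 : ph j j (2 ^ j) k = 1 := by
    rw [ph_start]
    unfold Aw
    rw [if_pos le_rfl]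
  rw [h1, sub_self, zero_mul, add_zero, one_mul]
  refine sum_eq_zero fun n hn => ?_
  rw [mem_Icc] at hn
  unfold pp sy sg
  rw [if_pos (hn.2.trans (Nat.div_le_self _ _))]
  ring

lemma DD_next (R j : ℕ) (z y : ℕ × ℕ → ℝ) (i : ℕ) :
    DD E j R z y (i + 1) (2 ^ (i + 1)) = DD E j R z y i (2 ^ (i + 1)) := by
  unfold DD Df
  congr 1
  symm
  have hsub : Icc 2 (2 ^ (i + 1)) ⊆ Icc 2 (2 ^ (i + 1 + 1)) :=
    Icc_subset_Icc_right (Nat.pow_le_pow_right (by norm_num) (Nat.le_succ _))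
  refine (sum_congr rfl fun k _ => ?_).trans (sum_subset hsub ?_)
  · rw [ph_end, ph_start]
  · intro k _ hk
    rw [mem_Icc] at *
    have hk2 : 2 ^ (i + 1) < k := by
      by_contra hcon
      apply hk
      constructor <;> omega
    have h0 : 2 ^ (i + 1) / k ^ 2 = 0 := by
      apply Nat.div_eq_of_lt
      calc 2 ^ (i + 1) < k := hk2
        _ ≤ k ^ 2 := Nat.le_self_pow (by norm_num) k
    rw [h0]
    simp

lemma Sol2.DD_cell {R j : ℕ} {z y : ℕ × ℕ → ℝ} (h : Sol2 E R j z y) (i : ℕ) (hi : j ≤ i)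
    (h0 : DD E j R z y i (2 ^ i) = 0) (k : ℕ) (hk : k ≤ nc E.δ i) :
    DD E j R z y i (2 ^ i + k * hh E.δ i) = 0 := by
  induction k with
  | zero => simpa using h0
  | succ k ih =>
    have h1 := ih (by omega)
    have hle : 2 ^ i + k * hh E.δ i ≤ 2 ^ i + (k + 1) * hh E.δ i := by gcongr; omega
    have h2 := h.corr i k hi (by omega)
    rw [← Df_sub j i _ _ hle] at h2
    have h3 := (sum_sy_cell E j y i k hi (by omega)).1
    unfold cell at h3
    have h4 := PP_add E j y (2 ^ i + k * hh E.δ i) _ hle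
    unfold DD at h1 ⊢
    linarith

lemma Sol2.DD_block {R j : ℕ} {z y : ℕ × ℕ → ℝ} (h : Sol2 E R j z y) (i : ℕ) (hi : j ≤ i) :
    DD E j R z y i (2 ^ i) = 0 := by
  induction i, hi using Nat.le_induction with
  | base => exact DD_start R j z y
  | succ i hi ih =>
    have h1 := h.DD_cell i hi ih (nc E.δ i) le_rfl
    rw [nc_mul E.δ E.hδ i] at h1
    rw [DD_next, show 2 ^ (i + 1) = 2 ^ i + 2 ^ i by rw [pow_succ, mul_two]]
    exact h1

lemma Sol2.DD_le {R j : ℕ} {z y : ℕ × ℕ → ℝ} (h : Sol2 E R j z y) (N : ℕ) (hN : 2 ^ j < N) :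
    |DD E j R z y (Env.sc N) N| ≤ E.w (Env.sc N) / 8 := by
  obtain ⟨k, hk, h1, h2, hji, h3, h4⟩ := locate E j N hN
  set i := Env.sc N with hi
  have h0 := h.DD_cell i hji (h.DD_block i hji) k hk.le
  have e : DD E j R z y i N = DD E j R z y i (2 ^ i + k * hh E.δ i) +
      (∑ n ∈ Ioc (2 ^ i + k * hh E.δ i) N, sy E j y n +
        Tf j i (2 ^ i + k * hh E.δ i) N (pp E j R z y) (hq E j R z)) := by
    unfold DD
    rw [PP_add E j y (2 ^ i + k * hh E.δ i) N h1.le, ← Df_sub j i _ _ h1.le]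
    ring
  rw [e, h0, zero_add]
  have hsub : Ioc (2 ^ i + k * hh E.δ i) N ⊆ cell E.δ i k := by
    intro n hn
    rw [mem_Ioc] at hn
    unfold cell
    rw [mem_Ioc]
    omega
  have t1 : |∑ n ∈ Ioc (2 ^ i + k * hh E.δ i) N, sy E j y n| ≤ E.w i / 16 := by
    rw [← (sum_sy_cell E j y i k hji hk).2]
    refine (abs_sum_le_sum_abs _ _).trans ?_
    refine le_trans (sum_le_sum fun n _ => ?_)
      (sum_le_sum_of_subset_of_nonneg hsub fun n _ _ => sg_nonneg E j n)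
    have h6 := sy_bound E j y 1 h.y1 n
    linarith
  have hlen : N - (2 ^ i + k * hh E.δ i) ≤ hh E.δ i := by
    have h5 : (k + 1) * hh E.δ i = k * hh E.δ i + hh E.δ i := by ring
    omega
  have t2 := h.est i hji (2 ^ i + k * hh E.δ i) N (Nat.le_add_right _ _) h1.le h4 hlen
  have hw := E.w_nonneg i
  refine (abs_add_le _ _).trans ?_
  linarith

/-- the decomposition of the partial sums -/
lemma SF_eq (R j : ℕ) (z y : ℕ × ℕ → ℝ) (i N : ℕ) (hN : N ≤ 2 ^ (i + 1)) (hN1 : 1 ≤ N) :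
    SF E j R z N = DD E j R z y i N + SE E j R z y N +
      ∑ k ∈ Icc 2 (2 ^ (i + 1)), ph j i N k * (FF E j R z k ^ 2 * SE E j R z y (N / k ^ 2)) := by
  have h1 : SF E j R z N = ∑ k ∈ Icc 1 N, FF E j R z k ^ 2 * E.SS R j z (N / k ^ 2) := by
    unfold SF
    rw [sum_sq_decomp]
    refine sum_congr rfl fun k hk => ?_
    rw [mem_Icc] at hk
    unfold Env.SS
    rw [mul_sum, sum_filter]
    refine sum_congr rfl fun s hs => ?_
    rw [mem_Icc] at hs
    split_ifs with hsq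
    · rw [ff_sqfree E j R z s hsq]
      unfold FF
      exact Fc_sq_mul _ k s (by omega) (by omega)
    · rw [ff_nsq E j R z s hsq, mul_zero]
  have h2 : ∑ k ∈ Icc 1 N, FF E j R z k ^ 2 * E.SS R j z (N / k ^ 2) =
      ∑ k ∈ Icc 1 (2 ^ (i + 1)), FF E j R z k ^ 2 * E.SS R j z (N / k ^ 2) := by
    refine sum_subset (Icc_subset_Icc_right hN) fun k _ hk => ?_
    rw [mem_Icc] at *
    have h3 : N / k ^ 2 = 0 := by
      apply Nat.div_eq_of_lt
      calc N < k := by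
            by_contra hcon
            apply hk
            constructor <;> omega
        _ ≤ k ^ 2 := Nat.le_self_pow (by norm_num) k
    rw [h3]
    unfold Env.SS
    simp
  have h3 : ∑ k ∈ Icc 1 (2 ^ (i + 1)), FF E j R z k ^ 2 * E.SS R j z (N / k ^ 2) =
      E.SS R j z N + ∑ k ∈ Icc 2 (2 ^ (i + 1)), FF E j R z k ^ 2 * E.SS R j z (N / k ^ 2) := by
    have h4 : Icc 1 (2 ^ (i + 1)) = insert 1 (Icc 2 (2 ^ (i + 1))) := by
      have h5 : 1 ≤ 2 ^ (i + 1) := Nat.one_le_two_pow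
      ext k
      simp only [mem_Icc, mem_insert]
      omega
    rw [h4, sum_insert (by simp)]
    congr 1
    unfold FF
    rw [Fc_one, one_pow, one_pow, Nat.div_one, one_mul]
  have h4 : Df j i N (pp E j R z y) (hq E j R z) =
      ∑ k ∈ Icc 2 (2 ^ (i + 1)), (ph j i N k * (FF E j R z k ^ 2 * PP E j y (N / k ^ 2)) +
        (1 - ph j i N k) * (FF E j R z k ^ 2 * E.SS R j z (N / k ^ 2))) := by
    unfold Df pp hq PP Env.SS
    refine sum_congr rfl fun k _ => ?_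
    rw [← mul_sum, ← mul_sum]
  rw [h1, h2, h3]
  unfold DD
  rw [h4]
  unfold SE
  have h5 : ∑ k ∈ Icc 2 (2 ^ (i + 1)), FF E j R z k ^ 2 * E.SS R j z (N / k ^ 2) =
      ∑ k ∈ Icc 2 (2 ^ (i + 1)), (ph j i N k * (FF E j R z k ^ 2 * PP E j y (N / k ^ 2)) +
        (1 - ph j i N k) * (FF E j R z k ^ 2 * E.SS R j z (N / k ^ 2))) +
      ∑ k ∈ Icc 2 (2 ^ (i + 1)), ph j i N k * (FF E j R z k ^ 2 *
        (E.SS R j z (N / k ^ 2) - PP E j y (N / k ^ 2))) := by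
    rw [← sum_add_distrib]
    refine sum_congr rfl fun k _ => ?_
    ring
  rw [h5]
  ring

end Pool.Agent.X115.CMO
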