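import Pool.Agent.X115.CMO.Cut

/-!
# The first part of the error functional
-/

set_option autoImplicit false

namespace Pool.Agent.X115.CMO

open Finset Filter Topology
open Pool.Agent.W76.MO
open scoped Classical

lemma hh_le (δ : ℝ) (hδ : δ ≤ 1 / 4) (i : ℕ) : (hh δ i : ℝ) ≤ (2 : ℝ) ^ ((1 / 2 - δ) * i) := by
  unfold hh
  push_cast
  rw [← Real.rpow_natCast]
  apply Real.rpow_le_rpow_of_exponent_le (by norm_num)
  apply Nat.floor_le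
  have : (0 : ℝ) ≤ i := Nat.cast_nonneg i
  nlinarith

lemma hh_ge (δ : ℝ) (i : ℕ) : (2 : ℝ) ^ ((1 / 2 - δ) * i) / 2 ≤ (hh δ i : ℝ) := by
  unfold hh
  push_cast
  have h1 : (2 : ℝ) ^ ((1 / 2 - δ) * i) ≤ (2 : ℝ) ^ (((⌊(1 / 2 - δ) * i⌋₊ : ℕ) : ℝ) + 1) := by
    apply Real.rpow_le_rpow_of_exponent_le (by norm_num)
    exact (Nat.lt_floor_add_one _).le
  rw [Real.rpow_add (by norm_num), Real.rpow_natCast, Real.rpow_one] at h1
  linarith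

variable (E : Env)

lemma delta_le : E.δ ≤ 1 / 100000 := by
  have h1 := E.hδ'
  have h2 := E.hτ'
  linarith

/-- bound for the slopes of the correction -/
noncomputable def sg (j n : ℕ) : ℝ :=
  if n ≤ 2 ^ j then 0 else E.w (Env.sc n) / (hh E.δ (Env.sc n) : ℝ) / 16

lemma sg_nonneg (j n : ℕ) : 0 ≤ sg E j n := by
  unfold sg
  split_ifs
  · exact le_rfl
  · exact div_nonneg (div_nonneg (E.w_nonneg _) (Nat.cast_nonneg _)) (by norm_num)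

lemma w_div_hh (i' n : ℕ) (hi : 1 ≤ i') (hn : 1 ≤ n) (h2 : n ≤ 2 ^ (i' + 1)) :
    E.w i' / (hh E.δ i' : ℝ) ≤ 4 * (n : ℝ) ^ (-1 + E.δ / 2) / (i' : ℝ) ^ 40 := by
  have hδ := E.hδ
  have hδ1 := delta_le E
  have hir : (0 : ℝ) < i' := by exact_mod_cast hi
  have h3 := hh_ge E.δ i'
  have h4 : (0 : ℝ) < (2 : ℝ) ^ ((1 / 2 - E.δ) * i') / 2 := by positivity
  have h5 : E.w i' / (hh E.δ i' : ℝ) ≤ E.w i' / ((2 : ℝ) ^ ((1 / 2 - E.δ) * i') / 2) :=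
    div_le_div_of_nonneg_left (E.w_nonneg _) h4 h3
  refine h5.trans ?_
  have h6 : E.w i' / ((2 : ℝ) ^ ((1 / 2 - E.δ) * i') / 2) =
      2 * ((2 : ℝ) ^ (i' : ℝ)) ^ (-1 + E.δ / 2) / (i' : ℝ) ^ 40 := by
    unfold Env.w
    rw [← Real.rpow_mul (by norm_num)]
    have e : (2 : ℝ) ^ (-(1 / 2 + E.δ / 2) * (i' : ℝ)) =
        (2 : ℝ) ^ ((i' : ℝ) * (-1 + E.δ / 2)) * (2 : ℝ) ^ ((1 / 2 - E.δ) * i') := by
      rw [← Real.rpow_add (by norm_num)]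
      congr 1
      ring
    rw [e]
    have h7 : (2 : ℝ) ^ ((1 / 2 - E.δ) * (i' : ℝ)) ≠ 0 := by positivity
    field_simp
  rw [h6]
  have h8 : ((2 : ℝ) ^ (i' : ℝ)) ^ (-1 + E.δ / 2) ≤ 2 * (n : ℝ) ^ (-1 + E.δ / 2) := by
    have hn0 : (0 : ℝ) < n := by exact_mod_cast hn
    have h9 : (n : ℝ) / 2 ≤ (2 : ℝ) ^ (i' : ℝ) := by
      have : (n : ℝ) ≤ ((2 ^ (i' + 1) : ℕ) : ℝ) := by exact_mod_cast h2
      push_cast at this
      rw [pow_succ] at this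
      rw [Real.rpow_natCast]
      linarith
    have h10 : ((2 : ℝ) ^ (i' : ℝ)) ^ (-1 + E.δ / 2) ≤ ((n : ℝ) / 2) ^ (-1 + E.δ / 2) :=
      Real.rpow_le_rpow_of_nonpos (by positivity) h9 (by linarith)
    refine h10.trans ?_
    rw [Real.div_rpow hn0.le (by norm_num), div_eq_mul_inv, ← Real.rpow_neg (by norm_num), mul_comm]
    apply mul_le_mul_of_nonneg_right _ (by positivity)
    calc (2 : ℝ) ^ (-(-1 + E.δ / 2)) ≤ (2 : ℝ) ^ (1 : ℝ) :=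
          Real.rpow_le_rpow_of_exponent_le (by norm_num) (by linarith)
      _ = 2 := Real.rpow_one 2
  have h11 : (0 : ℝ) < (i' : ℝ) ^ 40 := by positivity
  rw [div_le_div_iff_of_pos_right h11]
  linarith

lemma sc_spec (n : ℕ) (hn : 2 ≤ n) : 2 ^ Env.sc n < n ∧ n ≤ 2 ^ (Env.sc n + 1) := by
  unfold Env.sc
  have h1 : 2 ^ Nat.log 2 (n - 1) ≤ n - 1 := Nat.pow_log_le_self 2 (by omega)
  have h2 : n - 1 < 2 ^ (Nat.log 2 (n - 1) + 1) := Nat.lt_pow_succ_log_self (by norm_num) (n - 1)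
  omega

lemma w_eq (i : ℕ) : E.w i = (2 : ℝ) ^ (-(1 / 2 + E.δ / 2) * i) / (i : ℝ) ^ 40 := rfl

theorem partA (R : ℕ) (hR : 2 ^ 200 ≤ R) : ∃ J : ℕ, 1 ≤ J ∧ ∀ j : ℕ, J ≤ j → ∀ i : ℕ, j < i →
    ∀ a N : ℕ, 2 ^ i ≤ a → a ≤ N → N - a ≤ hh E.δ i →
    ∑ k ∈ Ioc (R - 1) (K0 (i + 1)), (k : ℝ) ^ (-2 + 2 * (9 * E.δ)) *
      ∑ n ∈ Ioc (a / k ^ 2) (N / k ^ 2), sg E j n ≤ E.w i / 512 := by
  have hδ := E.hδ
  have hδ1 := delta_le E
  refine ⟨100, by norm_num, fun j hj i hi a N ha haN hlen => ?_⟩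
  have hi100 : 100 < i := by omega
  have hir : (100 : ℝ) < i := by exact_mod_cast hi100
  -- bound for the slopes
  set V : ℝ := (2 : ℝ) ^ 78 * ((2 : ℝ) ^ i) ^ (-1 + E.δ / 2) / (i : ℝ) ^ 40 with hV
  have hV0 : 0 ≤ V := by positivity
  have hK : ∀ k : ℕ, k ≤ K0 (i + 1) → k ^ 2 ≤ 2 ^ (2 * ((i + 1) / 100)) := by
    intro k hk
    unfold K0 at hk
    calc k ^ 2 ≤ (2 ^ ((i + 1) / 100)) ^ 2 := Nat.pow_le_pow_left hk 2
      _ = 2 ^ (2 * ((i + 1) / 100)) := by rw [← pow_mul]; congr 1; ring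
  have hslope : ∀ k n : ℕ, 1 ≤ k → k ≤ K0 (i + 1) → n ∈ Ioc (a / k ^ 2) (N / k ^ 2) →
      sg E j n ≤ (k : ℝ) ^ 2 * V := by
    intro k n hk1 hk2 hn
    rw [mem_Ioc] at hn
    have hkk : 0 < k ^ 2 := by positivity
    have h1 : a < n * k ^ 2 := (Nat.div_lt_iff_lt_mul hkk).1 hn.1
    have h2 := hK k hk2
    unfold sg
    split_ifs with hnj
    · positivity
    have hn2 : 2 ≤ n := by
      have : 1 ≤ 2 ^ j := Nat.one_le_two_pow
      omega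
    obtain ⟨h3, h4⟩ := sc_spec n hn2
    set i' := Env.sc n with hi'
    -- `i' ≥ i / 2`
    have h5 : i < i' + 1 + 2 * ((i + 1) / 100) := by
      have h6 : 2 ^ i < 2 ^ (i' + 1 + 2 * ((i + 1) / 100)) := by
        calc 2 ^ i ≤ a := ha
          _ < n * k ^ 2 := h1
          _ ≤ 2 ^ (i' + 1) * 2 ^ (2 * ((i + 1) / 100)) := Nat.mul_le_mul h4 h2
          _ = 2 ^ (i' + 1 + 2 * ((i + 1) / 100)) := by rw [← pow_add]
      exact (Nat.pow_lt_pow_iff_right (by norm_num)).1 h6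
    have h7 : i ≤ 2 * i' := by omega
    have h7r : (i : ℝ) / 2 ≤ i' := by
      have : (i : ℝ) ≤ 2 * i' := by exact_mod_cast h7
      linarith
    have h8 := w_div_hh E i' n (by omega) (by omega) h4
    have hn0 : (0 : ℝ) < n := by exact_mod_cast (by omega : 0 < n)
    have h9 : (n : ℝ) ^ (-1 + E.δ / 2) ≤ (k : ℝ) ^ 2 * ((2 : ℝ) ^ i) ^ (-1 + E.δ / 2) := by
      have hk0 : (1 : ℝ) ≤ (k : ℝ) ^ 2 := by
        have : (1 : ℝ) ≤ k := by exact_mod_cast hk1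
        exact one_le_pow₀ this
      have h10 : (2 : ℝ) ^ i / (k : ℝ) ^ 2 ≤ n := by
        rw [div_le_iff₀ (by linarith)]
        have : 2 ^ i ≤ n * k ^ 2 := ha.trans h1.le
        exact_mod_cast this
      have h11 : (n : ℝ) ^ (-1 + E.δ / 2) ≤ ((2 : ℝ) ^ i / (k : ℝ) ^ 2) ^ (-1 + E.δ / 2) :=
        Real.rpow_le_rpow_of_nonpos (by positivity) h10 (by linarith)
      refine h11.trans ?_
      rw [Real.div_rpow (by positivity) (by positivity), div_eq_mul_inv,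
        ← Real.rpow_neg (by positivity), mul_comm]
      apply mul_le_mul_of_nonneg_right _ (by positivity)
      calc ((k : ℝ) ^ 2) ^ (-(-1 + E.δ / 2)) ≤ ((k : ℝ) ^ 2) ^ (1 : ℝ) :=
            Real.rpow_le_rpow_of_exponent_le hk0 (by linarith)
        _ = (k : ℝ) ^ 2 := Real.rpow_one _
    have h12 : ((i : ℝ) / 2) ^ 40 ≤ (i' : ℝ) ^ 40 := pow_le_pow_left₀ (by positivity) h7r 40
    have h13 : (0 : ℝ) < ((i : ℝ) / 2) ^ 40 := by positivity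
    calc E.w i' / (hh E.δ i' : ℝ) / 16 ≤ 4 * (n : ℝ) ^ (-1 + E.δ / 2) / (i' : ℝ) ^ 40 / 16 := by
          linarith
      _ ≤ 4 * ((k : ℝ) ^ 2 * ((2 : ℝ) ^ i) ^ (-1 + E.δ / 2)) / ((i : ℝ) / 2) ^ 40 / 16 := by
          gcongr
      _ ≤ (k : ℝ) ^ 2 * V := by
          rw [hV, div_pow]
          have h14 : (0 : ℝ) < (i : ℝ) ^ 40 := by positivity
          have e : 4 * ((k : ℝ) ^ 2 * ((2 : ℝ) ^ i) ^ (-1 + E.δ / 2)) / ((i : ℝ) ^ 40 / 2 ^ 40) / 16 =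
              (k : ℝ) ^ 2 * ((2 : ℝ) ^ 38 * ((2 : ℝ) ^ i) ^ (-1 + E.δ / 2) / (i : ℝ) ^ 40) := by
            field_simp
            ring
          rw [e]
          apply mul_le_mul_of_nonneg_left _ (by positivity)
          apply div_le_div_of_nonneg_right _ h14.le
          apply mul_le_mul_of_nonneg_right _ (by positivity)
          norm_num
  -- the inner sum
  have hinner : ∀ k ∈ Ioc (R - 1) (K0 (i + 1)),
      ∑ n ∈ Ioc (a / k ^ 2) (N / k ^ 2), sg E j n ≤ 2 * (hh E.δ i : ℝ) * V := by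
    intro k hk
    rw [mem_Ioc] at hk
    have hk1 : 1 ≤ k := by omega
    have hkk : 0 < k ^ 2 := by positivity
    have hkr : (0 : ℝ) < (k : ℝ) ^ 2 := by exact_mod_cast hkk
    have h1 : ∑ n ∈ Ioc (a / k ^ 2) (N / k ^ 2), sg E j n ≤
        ∑ n ∈ Ioc (a / k ^ 2) (N / k ^ 2), (k : ℝ) ^ 2 * V :=
      sum_le_sum fun n hn => hslope k n hk1 hk.2 hn
    refine h1.trans ?_
    rw [sum_const, nsmul_eq_mul, Nat.card_Ioc]
    have h2 : ((N / k ^ 2 - a / k ^ 2 : ℕ) : ℝ) ≤ (hh E.δ i : ℝ) / (k : ℝ) ^ 2 + 1 := by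
      have h3 := div_sub_div_le a N (k ^ 2) haN hkk
      have h4 : (N - a) / k ^ 2 + 1 ≤ hh E.δ i / k ^ 2 + 1 := Nat.add_le_add_right (Nat.div_le_div_right hlen) 1
      have h5 : ((N / k ^ 2 - a / k ^ 2 : ℕ) : ℝ) ≤ ((hh E.δ i / k ^ 2 + 1 : ℕ) : ℝ) := by
        exact_mod_cast h3.trans h4
      refine h5.trans ?_
      push_cast
      have h6 : ((hh E.δ i / k ^ 2 : ℕ) : ℝ) ≤ (hh E.δ i : ℝ) / ((k ^ 2 : ℕ) : ℝ) := Nat.cast_div_le
      push_cast at h6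
      linarith
    have h3 : (k : ℝ) ^ 2 ≤ (hh E.δ i : ℝ) := by
      have h4 := hK k hk.2
      have h5 : 2 ^ (2 * ((i + 1) / 100)) ≤ hh E.δ i := by
        unfold hh
        apply Nat.pow_le_pow_right (by norm_num)
        apply Nat.le_floor
        have h6 : 2 * ((i + 1) / 100) ≤ i / 4 := by omega
        have h7 : ((2 * ((i + 1) / 100) : ℕ) : ℝ) ≤ ((i / 4 : ℕ) : ℝ) := by exact_mod_cast h6
        have h8 : ((i / 4 : ℕ) : ℝ) ≤ (i : ℝ) / 4 := Nat.cast_div_le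
        nlinarith
      have h6 : k ^ 2 ≤ hh E.δ i := h4.trans h5
      exact_mod_cast h6
    have h4 : ((N / k ^ 2 - a / k ^ 2 : ℕ) : ℝ) * (k : ℝ) ^ 2 ≤ 2 * (hh E.δ i : ℝ) := by
      calc ((N / k ^ 2 - a / k ^ 2 : ℕ) : ℝ) * (k : ℝ) ^ 2
          ≤ ((hh E.δ i : ℝ) / (k : ℝ) ^ 2 + 1) * (k : ℝ) ^ 2 :=
            mul_le_mul_of_nonneg_right h2 hkr.le
        _ = (hh E.δ i : ℝ) + (k : ℝ) ^ 2 := by field_simp
        _ ≤ _ := by linarith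
    calc ((N / k ^ 2 - a / k ^ 2 : ℕ) : ℝ) * ((k : ℝ) ^ 2 * V)
        = ((N / k ^ 2 - a / k ^ 2 : ℕ) : ℝ) * (k : ℝ) ^ 2 * V := by ring
      _ ≤ 2 * (hh E.δ i : ℝ) * V := mul_le_mul_of_nonneg_right h4 hV0
  -- the outer sum
  have hR1 : 1 ≤ R - 1 := by omega
  have htail := sum_tail_rpow (9 * E.δ) (by linarith) (R - 1) (K0 (i + 1)) hR1
  have hsq : (2 : ℝ) ^ 90 ≤ Real.sqrt ((R - 1 : ℕ) : ℝ) := by
    apply Real.le_sqrt_of_sq_le
    have h1 : 2 ^ 180 ≤ R - 1 := by omega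
    have h2 : (2 : ℝ) ^ 180 ≤ ((R - 1 : ℕ) : ℝ) := by exact_mod_cast h1
    rw [← pow_mul]
    exact h2
  have htail2 : ∑ k ∈ Ioc (R - 1) (K0 (i + 1)), (k : ℝ) ^ (-2 + 2 * (9 * E.δ)) ≤ 2 / (2 : ℝ) ^ 90 :=
    htail.trans (div_le_div_of_nonneg_left (by norm_num) (by positivity) hsq)
  have hVw : (hh E.δ i : ℝ) * V ≤ (2 : ℝ) ^ 78 * E.w i := by
    have h1 := hh_le E.δ (by linarith) i
    calc (hh E.δ i : ℝ) * V ≤ (2 : ℝ) ^ ((1 / 2 - E.δ) * i) * V := mul_le_mul_of_nonneg_right h1 hV0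
      _ = (2 : ℝ) ^ 78 * E.w i := by
          rw [hV, w_eq, ← Real.rpow_natCast 2 i, ← Real.rpow_mul (by norm_num)]
          have e : (2 : ℝ) ^ (-(1 / 2 + E.δ / 2) * (i : ℝ)) =
              (2 : ℝ) ^ ((1 / 2 - E.δ) * (i : ℝ)) * (2 : ℝ) ^ ((i : ℝ) * (-1 + E.δ / 2)) := by
            rw [← Real.rpow_add (by norm_num)]
            congr 1
            ring
          rw [e]
          ring
  calc ∑ k ∈ Ioc (R - 1) (K0 (i + 1)), (k : ℝ) ^ (-2 + 2 * (9 * E.δ)) *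
        ∑ n ∈ Ioc (a / k ^ 2) (N / k ^ 2), sg E j n
      ≤ ∑ k ∈ Ioc (R - 1) (K0 (i + 1)), (k : ℝ) ^ (-2 + 2 * (9 * E.δ)) *
          (2 * (hh E.δ i : ℝ) * V) := by
        refine sum_le_sum fun k hk => ?_
        exact mul_le_mul_of_nonneg_left (hinner k hk) (by positivity)
    _ = (∑ k ∈ Ioc (R - 1) (K0 (i + 1)), (k : ℝ) ^ (-2 + 2 * (9 * E.δ))) *
          (2 * (hh E.δ i : ℝ) * V) := by rw [sum_mul]
    _ ≤ (2 / (2 : ℝ) ^ 90) * (2 * ((2 : ℝ) ^ 78 * E.w i)) := by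
        apply mul_le_mul htail2 _ (by positivity) (by positivity)
        linarith
    _ = E.w i / 1024 := by ring
    _ ≤ E.w i / 512 := by
        have := E.w_nonneg i
        linarith

end Pool.Agent.X115.CMO
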