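import Pool.Agent.X115.CMO.PartA

/-!
# The other two parts of the error functional
-/

set_option autoImplicit false

namespace Pool.Agent.X115.CMO

open Finset Filter Topology
open Pool.Agent.W76.MO
open scoped Classical

variable (E : Env)

lemma inv_sqrt_K0 (i : ℕ) : 1 / Real.sqrt (K0 i) ≤ 2 * (2 : ℝ) ^ (-((i : ℝ) / 200)) := by
  have h1 : (2 : ℝ) ^ ((i : ℝ) / 200) / 2 ≤ Real.sqrt (K0 i) := by
    apply Real.le_sqrt_of_sq_le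
    have h2 : (i : ℝ) / 100 ≤ ((i / 100 : ℕ) : ℝ) + 1 := by
      have h3 : i < (i / 100 + 1) * 100 := by omega
      have h4 : (i : ℝ) < (((i / 100 + 1) * 100 : ℕ) : ℝ) := by exact_mod_cast h3
      push_cast at h4
      rw [div_le_iff₀ (by norm_num)]
      linarith
    have h5 : ((2 : ℝ) ^ ((i : ℝ) / 200)) ^ 2 = (2 : ℝ) ^ ((i : ℝ) / 100) := by
      rw [← Real.rpow_natCast, ← Real.rpow_mul (by norm_num)]
      congr 1
      push_cast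
      ring
    have h6 : (2 : ℝ) ^ ((i : ℝ) / 100) ≤ (K0 i : ℝ) * 2 := by
      unfold K0
      push_cast
      calc (2 : ℝ) ^ ((i : ℝ) / 100) ≤ (2 : ℝ) ^ (((i / 100 : ℕ) : ℝ) + 1) :=
            Real.rpow_le_rpow_of_exponent_le (by norm_num) h2
        _ = 2 ^ (i / 100) * 2 := by rw [Real.rpow_add (by norm_num), Real.rpow_natCast, Real.rpow_one]
    rw [div_pow, h5]
    have h7 : (0 : ℝ) ≤ K0 i := Nat.cast_nonneg _
    linarith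
  have h8 : (0 : ℝ) < (2 : ℝ) ^ ((i : ℝ) / 200) / 2 := by positivity
  calc 1 / Real.sqrt (K0 i) ≤ 1 / ((2 : ℝ) ^ ((i : ℝ) / 200) / 2) :=
        one_div_le_one_div_of_le h8 h1
    _ = 2 * (2 : ℝ) ^ (-((i : ℝ) / 200)) := by
        rw [Real.rpow_neg (by norm_num)]
        field_simp

theorem partB : ∃ J : ℕ, 1 ≤ J ∧ ∀ i : ℕ, J ≤ i →
    ∀ a N : ℕ, 2 ^ i ≤ a → a ≤ N → N ≤ 2 ^ (i + 1) → N - a ≤ hh E.δ i →
    ∑ k ∈ Ioc (K0 i) (2 ^ (i + 1)),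
      ∑ n ∈ Ioc (a / k ^ 2) (N / k ^ 2), ((k ^ 2 * n : ℕ) : ℝ) ^ (-1 + 9 * E.δ) ≤ E.w i / 512 := by
  have hδ := E.hδ
  have hδ1 := delta_le E
  obtain ⟨J, hJ1, hJ⟩ := eventually_small (1 / 400) (17 * 512) (by norm_num) 40
  refine ⟨J + 1000, by omega, fun i hi a N ha haN hN hlen => ?_⟩
  have hi1000 : 1000 ≤ i := by omega
  have hir : (1000 : ℝ) ≤ i := by exact_mod_cast hi1000
  set β : ℝ := -1 + 9 * E.δ with hβ
  set X : ℕ := 2 ^ (i / 3) with hX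
  have hX1 : 1 ≤ X := Nat.one_le_two_pow
  have hKX : K0 i ≤ X := by
    unfold K0
    apply Nat.pow_le_pow_right (by norm_num)
    omega
  have hXM : X ≤ 2 ^ (i + 1) := Nat.pow_le_pow_right (by norm_num) (by omega)
  -- each term
  have hterm : ∀ k n : ℕ, 1 ≤ k → n ∈ Ioc (a / k ^ 2) (N / k ^ 2) →
      ((k ^ 2 * n : ℕ) : ℝ) ^ β ≤ ((2 : ℝ) ^ i) ^ β := by
    intro k n hk hn
    rw [mem_Ioc] at hn
    have hkk : 0 < k ^ 2 := by positivity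
    have h1 : a < n * k ^ 2 := (Nat.div_lt_iff_lt_mul hkk).1 hn.1
    apply Real.rpow_le_rpow_of_nonpos (by positivity)
    · have : 2 ^ i ≤ k ^ 2 * n := by rw [mul_comm]; omega
      exact_mod_cast this
    · rw [hβ]; linarith
  -- reduce to counting
  have h1 : ∑ k ∈ Ioc (K0 i) (2 ^ (i + 1)),
      ∑ n ∈ Ioc (a / k ^ 2) (N / k ^ 2), ((k ^ 2 * n : ℕ) : ℝ) ^ β ≤
      (((∑ k ∈ Ioc (K0 i) (2 ^ (i + 1)), (N / k ^ 2 - a / k ^ 2) : ℕ)) : ℝ) * ((2 : ℝ) ^ i) ^ β := by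
    rw [Nat.cast_sum, sum_mul]
    refine sum_le_sum fun k hk => ?_
    rw [mem_Ioc] at hk
    have hk1 : 1 ≤ k := by omega
    calc ∑ n ∈ Ioc (a / k ^ 2) (N / k ^ 2), ((k ^ 2 * n : ℕ) : ℝ) ^ β
        ≤ ∑ n ∈ Ioc (a / k ^ 2) (N / k ^ 2), ((2 : ℝ) ^ i) ^ β :=
          sum_le_sum fun n hn => hterm k n hk1 hn
      _ = ((N / k ^ 2 - a / k ^ 2 : ℕ) : ℝ) * ((2 : ℝ) ^ i) ^ β := by
          rw [sum_const, nsmul_eq_mul, Nat.card_Ioc]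
  -- the count
  have hsplit : ∑ k ∈ Ioc (K0 i) (2 ^ (i + 1)), (N / k ^ 2 - a / k ^ 2) =
      ∑ k ∈ Ioc (K0 i) X, (N / k ^ 2 - a / k ^ 2) +
      ∑ k ∈ Ioc X (2 ^ (i + 1)), (N / k ^ 2 - a / k ^ 2) :=
    (sum_Ioc_consecutive _ hKX hXM).symm
  have hc1 : ((∑ k ∈ Ioc (K0 i) X, (N / k ^ 2 - a / k ^ 2) : ℕ) : ℝ) ≤
      (hh E.δ i : ℝ) * (2 / Real.sqrt (K0 i)) + X := by
    push_cast
    have h2 : ∀ k ∈ Ioc (K0 i) X, ((N / k ^ 2 - a / k ^ 2 : ℕ) : ℝ) ≤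
        (hh E.δ i : ℝ) * (1 / (Real.sqrt k) ^ 3) + 1 := by
      intro k hk
      rw [mem_Ioc] at hk
      have hk1 : 1 ≤ k := by omega
      have hkk : 0 < k ^ 2 := by positivity
      have h3 := div_sub_div_le a N (k ^ 2) haN hkk
      have h4 : (N - a) / k ^ 2 + 1 ≤ hh E.δ i / k ^ 2 + 1 :=
        Nat.add_le_add_right (Nat.div_le_div_right hlen) 1
      have h5 : ((N / k ^ 2 - a / k ^ 2 : ℕ) : ℝ) ≤ ((hh E.δ i / k ^ 2 + 1 : ℕ) : ℝ) := by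
        exact_mod_cast h3.trans h4
      refine h5.trans ?_
      push_cast
      have h6 : ((hh E.δ i / k ^ 2 : ℕ) : ℝ) ≤ (hh E.δ i : ℝ) / ((k ^ 2 : ℕ) : ℝ) := Nat.cast_div_le
      push_cast at h6
      have h7 := rpow_le_tele 0 (by norm_num) k hk1
      have h8 : (k : ℝ) ^ (-2 + 2 * (0 : ℝ)) = 1 / (k : ℝ) ^ 2 := by
        rw [mul_zero, add_zero, Real.rpow_neg (by positivity), one_div]
        congr 1
        exact_mod_cast Real.rpow_natCast (k : ℝ) 2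
      rw [h8] at h7
      have h9 : (hh E.δ i : ℝ) / (k : ℝ) ^ 2 ≤ (hh E.δ i : ℝ) * (1 / (Real.sqrt k) ^ 3) := by
        rw [div_eq_mul_one_div]
        exact mul_le_mul_of_nonneg_left h7 (Nat.cast_nonneg _)
      linarith
    refine (sum_le_sum h2).trans ?_
    rw [sum_add_distrib, ← mul_sum, sum_const, nsmul_eq_mul, mul_one, Nat.card_Ioc]
    have h3 := sum_tail (K0 i) X (K0_pos i)
    have h4 : ((X - K0 i : ℕ) : ℝ) ≤ X := by exact_mod_cast Nat.sub_le _ _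
    have h5 : (hh E.δ i : ℝ) * ∑ k ∈ Ioc (K0 i) X, 1 / (Real.sqrt k) ^ 3 ≤
        (hh E.δ i : ℝ) * (2 / Real.sqrt (K0 i)) := mul_le_mul_of_nonneg_left h3 (Nat.cast_nonneg _)
    linarith
  have hc2 : ∑ k ∈ Ioc X (2 ^ (i + 1)), (N / k ^ 2 - a / k ^ 2) ≤ 8 * X := by
    have hhsq : hh E.δ i ^ 2 ≤ 2 ^ i := by
      unfold hh
      rw [← pow_mul]
      apply Nat.pow_le_pow_right (by norm_num)
      have h2 : ((⌊(1 / 2 - E.δ) * i⌋₊ : ℕ) : ℝ) ≤ (1 / 2 - E.δ) * i := by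
        apply Nat.floor_le
        nlinarith
      have h3 : ((⌊(1 / 2 - E.δ) * i⌋₊ * 2 : ℕ) : ℝ) ≤ (i : ℝ) := by
        push_cast
        nlinarith
      exact_mod_cast h3
    have h2 := count_large a N X (2 ^ (i + 1)) haN hX1
      (((Nat.pow_le_pow_left hlen 2).trans hhsq).trans ha) (Nat.one_le_two_pow.trans ha)
    refine h2.trans ?_
    have h3 : N / X ^ 2 ≤ 2 ^ (i + 1) / X ^ 2 := Nat.div_le_div_right hN
    refine h3.trans ?_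
    apply Nat.div_le_of_le_mul
    rw [hX]
    calc 2 ^ (i + 1) ≤ 2 ^ (2 * (i / 3) + (3 + i / 3)) := Nat.pow_le_pow_right (by norm_num) (by omega)
      _ = (2 ^ (i / 3)) ^ 2 * (8 * 2 ^ (i / 3)) := by
          rw [pow_add, pow_add]
          ring
  have hcount : (((∑ k ∈ Ioc (K0 i) (2 ^ (i + 1)), (N / k ^ 2 - a / k ^ 2) : ℕ)) : ℝ) ≤
      4 * (2 : ℝ) ^ ((1 / 2 - E.δ) * i) * (2 : ℝ) ^ (-((i : ℝ) / 200)) + 9 * (2 : ℝ) ^ ((i : ℝ) / 3) := by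
    rw [hsplit]
    push_cast
    have h2 : ((∑ k ∈ Ioc X (2 ^ (i + 1)), (N / k ^ 2 - a / k ^ 2) : ℕ) : ℝ) ≤ 8 * X := by
      exact_mod_cast hc2
    push_cast at hc1 h2
    have h3 : (X : ℝ) ≤ (2 : ℝ) ^ ((i : ℝ) / 3) := by
      rw [hX]
      push_cast
      rw [← Real.rpow_natCast]
      apply Real.rpow_le_rpow_of_exponent_le (by norm_num)
      exact Nat.cast_div_le
    have h4 := inv_sqrt_K0 i
    have h5 := hh_le E.δ (by linarith) i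
    have h6 : (hh E.δ i : ℝ) * (2 / Real.sqrt (K0 i)) ≤
        (2 : ℝ) ^ ((1 / 2 - E.δ) * i) * (2 * (2 * (2 : ℝ) ^ (-((i : ℝ) / 200)))) := by
      apply mul_le_mul h5 _ (by positivity) (by positivity)
      rw [show (2 : ℝ) / Real.sqrt (K0 i) = 2 * (1 / Real.sqrt (K0 i)) by ring]
      linarith
    linarith
  have hw0 := E.w_nonneg i
  have hpos : (0 : ℝ) ≤ ((2 : ℝ) ^ i) ^ β := by positivity
  refine h1.trans ((mul_le_mul_of_nonneg_right hcount hpos).trans ?_)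
  -- final comparison
  have hbase : ((2 : ℝ) ^ i) ^ β = (2 : ℝ) ^ ((i : ℝ) * β) := by
    rw [← Real.rpow_natCast 2 i, ← Real.rpow_mul (by norm_num)]
  rw [hbase]
  have ht1 : (2 : ℝ) ^ ((1 / 2 - E.δ) * i) * (2 : ℝ) ^ (-((i : ℝ) / 200)) * (2 : ℝ) ^ ((i : ℝ) * β) ≤
      (2 : ℝ) ^ (-(1 / 2 + E.δ / 2) * i) * (2 : ℝ) ^ (-(1 / 400 * (i : ℝ))) := by
    rw [← Real.rpow_add (by norm_num), ← Real.rpow_add (by norm_num), ← Real.rpow_add (by norm_num)]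
    apply Real.rpow_le_rpow_of_exponent_le (by norm_num)
    rw [hβ]
    nlinarith
  have ht2 : (2 : ℝ) ^ ((i : ℝ) / 3) * (2 : ℝ) ^ ((i : ℝ) * β) ≤
      (2 : ℝ) ^ (-(1 / 2 + E.δ / 2) * i) * (2 : ℝ) ^ (-(1 / 400 * (i : ℝ))) := by
    rw [← Real.rpow_add (by norm_num), ← Real.rpow_add (by norm_num)]
    apply Real.rpow_le_rpow_of_exponent_le (by norm_num)
    rw [hβ]
    nlinarith
  have h2 := hJ i (by omega)
  have hi40 : (0 : ℝ) < (i : ℝ) ^ 40 := by positivity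
  set W0 : ℝ := (2 : ℝ) ^ (-(1 / 2 + E.δ / 2) * i) with hW0
  have hW00 : 0 < W0 := by positivity
  have hfin : 13 * (W0 * (2 : ℝ) ^ (-(1 / 400 * (i : ℝ)))) ≤ E.w i / 512 := by
    rw [w_eq, ← hW0, div_div, le_div_iff₀ (by positivity)]
    have h3 : (0 : ℝ) < (2 : ℝ) ^ (-(1 / 400 * (i : ℝ))) := by positivity
    have h4 : 13 * ((i : ℝ) ^ 40 * 512) * (2 : ℝ) ^ (-(1 / 400 * (i : ℝ))) ≤ 1 := by
      refine le_trans ?_ h2
      have h5 : (0 : ℝ) ≤ (i : ℝ) ^ 40 * (2 : ℝ) ^ (-(1 / 400 * (i : ℝ))) := by positivity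
      nlinarith
    calc 13 * (W0 * (2 : ℝ) ^ (-(1 / 400 * (i : ℝ)))) * ((i : ℝ) ^ 40 * 512)
        = W0 * (13 * ((i : ℝ) ^ 40 * 512) * (2 : ℝ) ^ (-(1 / 400 * (i : ℝ)))) := by ring
      _ ≤ W0 * 1 := mul_le_mul_of_nonneg_left h4 hW00.le
      _ = W0 := mul_one _
  calc (4 * (2 : ℝ) ^ ((1 / 2 - E.δ) * i) * (2 : ℝ) ^ (-((i : ℝ) / 200)) +
        9 * (2 : ℝ) ^ ((i : ℝ) / 3)) * (2 : ℝ) ^ ((i : ℝ) * β)
      = 4 * ((2 : ℝ) ^ ((1 / 2 - E.δ) * i) * (2 : ℝ) ^ (-((i : ℝ) / 200)) * (2 : ℝ) ^ ((i : ℝ) * β)) +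
        9 * ((2 : ℝ) ^ ((i : ℝ) / 3) * (2 : ℝ) ^ ((i : ℝ) * β)) := by ring
    _ ≤ 13 * (W0 * (2 : ℝ) ^ (-(1 / 400 * (i : ℝ)))) := by linarith
    _ ≤ _ := hfin

end Pool.Agent.X115.CMO
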