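import Pool.Agent.X115.CMO.PartB

/-!
# The third part of the error functional, and the main estimate
-/

set_option autoImplicit false

namespace Pool.Agent.X115.CMO

open Finset Filter Topology
open Pool.Agent.W76.MO
open scoped Classical

variable (E : Env)

lemma sg_le (j n : ℕ) (hj : 1 ≤ j) (hn : 1 ≤ n) : sg E j n ≤ (n : ℝ) ^ (-1 + 9 * E.δ) := by
  have hδ := E.hδ
  have hδ1 := delta_le E
  have hn0 : (0 : ℝ) < n := by exact_mod_cast hn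
  have hn1 : (1 : ℝ) ≤ n := by exact_mod_cast hn
  unfold sg
  split_ifs with h
  · positivity
  · have h2 : 2 ≤ n := by
      have : 1 ≤ 2 ^ j := Nat.one_le_two_pow
      omega
    obtain ⟨h3, h4⟩ := sc_spec n h2
    have hsc : 1 ≤ Env.sc n := by
      have h5 : 2 ^ j < 2 ^ (Env.sc n + 1) := by omega
      have h6 := (Nat.pow_lt_pow_iff_right (a := 2) (by norm_num)).1 h5
      omega
    have h5 := w_div_hh E (Env.sc n) n hsc hn h4
    have hscr : (1 : ℝ) ≤ Env.sc n := by exact_mod_cast hsc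
    have h6 : 4 * (n : ℝ) ^ (-1 + E.δ / 2) / (Env.sc n : ℝ) ^ 40 ≤ 4 * (n : ℝ) ^ (-1 + E.δ / 2) :=
      div_le_self (by positivity) (one_le_pow₀ hscr)
    have h7 : (n : ℝ) ^ (-1 + E.δ / 2) ≤ (n : ℝ) ^ (-1 + 9 * E.δ) :=
      Real.rpow_le_rpow_of_exponent_le hn1 (by linarith)
    have h8 : 0 ≤ (n : ℝ) ^ (-1 + E.δ / 2) := by positivity
    linarith

lemma sum_rpow_le (i M : ℕ) (hM : M ≤ 2 ^ (i + 1)) :
    ∑ n ∈ Icc 1 M, (n : ℝ) ^ (-1 + 9 * E.δ) ≤ 2 * (2 : ℝ) ^ (9 * E.δ * i) * (i + 2) := by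
  have hδ := E.hδ
  have hδ1 := delta_le E
  have h1 : ∀ n ∈ Icc (1 : ℕ) (2 ^ (i + 1)), (n : ℝ) ^ (-1 + 9 * E.δ) ≤
      (2 * (2 : ℝ) ^ (9 * E.δ * i)) * (1 / (n : ℝ)) := by
    intro n hn
    rw [mem_Icc] at hn
    have hn0 : (0 : ℝ) < n := by exact_mod_cast hn.1
    rw [Real.rpow_add hn0, Real.rpow_neg hn0.le, Real.rpow_one, one_div, mul_comm]
    apply mul_le_mul_of_nonneg_right _ (by positivity)
    have h2 : (n : ℝ) ≤ (2 : ℝ) ^ ((i : ℝ) + 1) := by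
      have : (n : ℝ) ≤ ((2 ^ (i + 1) : ℕ) : ℝ) := by exact_mod_cast hn.2
      push_cast at this
      calc (n : ℝ) ≤ 2 ^ (i + 1) := this
        _ = (2 : ℝ) ^ ((i : ℝ) + 1) := by rw [← Real.rpow_natCast]; push_cast; rfl
    calc (n : ℝ) ^ (9 * E.δ) ≤ ((2 : ℝ) ^ ((i : ℝ) + 1)) ^ (9 * E.δ) :=
          Real.rpow_le_rpow hn0.le h2 (by positivity)
      _ = (2 : ℝ) ^ (9 * E.δ) * (2 : ℝ) ^ (9 * E.δ * i) := by
          rw [← Real.rpow_mul (by norm_num), ← Real.rpow_add (by norm_num)]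
          congr 1
          ring
      _ ≤ 2 * (2 : ℝ) ^ (9 * E.δ * i) := by
          apply mul_le_mul_of_nonneg_right _ (by positivity)
          calc (2 : ℝ) ^ (9 * E.δ) ≤ (2 : ℝ) ^ (1 : ℝ) :=
                Real.rpow_le_rpow_of_exponent_le (by norm_num) (by linarith)
            _ = 2 := Real.rpow_one 2
  calc ∑ n ∈ Icc 1 M, (n : ℝ) ^ (-1 + 9 * E.δ) ≤
        ∑ n ∈ Icc (1 : ℕ) (2 ^ (i + 1)), (n : ℝ) ^ (-1 + 9 * E.δ) :=
        sum_le_sum_of_subset_of_nonneg (Icc_subset_Icc_right hM) fun n _ _ => by positivity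
    _ ≤ ∑ n ∈ Icc (1 : ℕ) (2 ^ (i + 1)), (2 * (2 : ℝ) ^ (9 * E.δ * i)) * (1 / (n : ℝ)) := sum_le_sum h1
    _ = (2 * (2 : ℝ) ^ (9 * E.δ * i)) * ∑ n ∈ Icc (1 : ℕ) (2 ^ (i + 1)), 1 / (n : ℝ) := by rw [mul_sum]
    _ ≤ (2 * (2 : ℝ) ^ (9 * E.δ * i)) * (i + 2) := by
        apply mul_le_mul_of_nonneg_left _ (by positivity)
        have h2 := Env.harm_le (i + 1)
        push_cast at h2
        push_cast
        linarith

theorem partC : ∃ J : ℕ, 1 ≤ J ∧ ∀ j i : ℕ, 1 ≤ j → J ≤ i → ∀ N : ℕ, N ≤ 2 ^ (i + 1) →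
    ∑ k ∈ Ioc (K0 i) (2 ^ (i + 1)), ((hh E.δ i : ℝ) / 2 ^ i) *
      ∑ n ∈ Icc 1 (N / k ^ 2), ((k : ℝ) ^ (-2 + 2 * (9 * E.δ)) * sg E j n +
        ((k ^ 2 * n : ℕ) : ℝ) ^ (-1 + 9 * E.δ)) ≤ E.w i / 512 := by
  have hδ := E.hδ
  have hδ1 := delta_le E
  obtain ⟨J, hJ1, hJ⟩ := eventually_small (1 / 400) (48 * 512) (by norm_num) 41
  refine ⟨J + 10, by omega, fun j i hj hi N hN => ?_⟩
  have hi1 : 10 ≤ i := by omega
  have hir : (10 : ℝ) ≤ i := by exact_mod_cast hi1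
  -- the inner sums
  have hinner : ∀ k ∈ Ioc (K0 i) (2 ^ (i + 1)), ((hh E.δ i : ℝ) / 2 ^ i) *
      ∑ n ∈ Icc 1 (N / k ^ 2), ((k : ℝ) ^ (-2 + 2 * (9 * E.δ)) * sg E j n +
        ((k ^ 2 * n : ℕ) : ℝ) ^ (-1 + 9 * E.δ)) ≤
      (k : ℝ) ^ (-2 + 2 * (9 * E.δ)) *
        (((hh E.δ i : ℝ) / 2 ^ i) * (2 * (2 * (2 : ℝ) ^ (9 * E.δ * i) * (i + 2)))) := by
    intro k hk
    rw [mem_Ioc] at hk
    have hk1 : 1 ≤ k := by omega
    have hk0 : (0 : ℝ) < k := by exact_mod_cast hk1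
    have h1 : ∑ n ∈ Icc 1 (N / k ^ 2), ((k : ℝ) ^ (-2 + 2 * (9 * E.δ)) * sg E j n +
        ((k ^ 2 * n : ℕ) : ℝ) ^ (-1 + 9 * E.δ)) ≤
        ∑ n ∈ Icc 1 (N / k ^ 2), (k : ℝ) ^ (-2 + 2 * (9 * E.δ)) *
          (2 * (n : ℝ) ^ (-1 + 9 * E.δ)) := by
      refine sum_le_sum fun n hn => ?_
      rw [mem_Icc] at hn
      have h2 := sg_le E j n hj hn.1
      have h3 : ((k ^ 2 * n : ℕ) : ℝ) ^ (-1 + 9 * E.δ) =
          (k : ℝ) ^ (-2 + 2 * (9 * E.δ)) * (n : ℝ) ^ (-1 + 9 * E.δ) := by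
        push_cast
        rw [Real.mul_rpow (by positivity) (by positivity), ← Real.rpow_natCast (k : ℝ) 2,
          ← Real.rpow_mul hk0.le]
        congr 2
        push_cast
        ring
      rw [h3]
      have h4 : 0 ≤ (k : ℝ) ^ (-2 + 2 * (9 * E.δ)) := by positivity
      nlinarith
    have h2 := sum_rpow_le E i (N / k ^ 2) ((Nat.div_le_self _ _).trans hN)
    have h3 : (0 : ℝ) ≤ (hh E.δ i : ℝ) / 2 ^ i := by positivity
    calc ((hh E.δ i : ℝ) / 2 ^ i) * ∑ n ∈ Icc 1 (N / k ^ 2),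
          ((k : ℝ) ^ (-2 + 2 * (9 * E.δ)) * sg E j n + ((k ^ 2 * n : ℕ) : ℝ) ^ (-1 + 9 * E.δ))
        ≤ ((hh E.δ i : ℝ) / 2 ^ i) * ∑ n ∈ Icc 1 (N / k ^ 2), (k : ℝ) ^ (-2 + 2 * (9 * E.δ)) *
          (2 * (n : ℝ) ^ (-1 + 9 * E.δ)) := mul_le_mul_of_nonneg_left h1 h3
      _ = (k : ℝ) ^ (-2 + 2 * (9 * E.δ)) * (((hh E.δ i : ℝ) / 2 ^ i) *
            (2 * ∑ n ∈ Icc 1 (N / k ^ 2), (n : ℝ) ^ (-1 + 9 * E.δ))) := by
          rw [← mul_sum, ← mul_sum]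
          ring
      _ ≤ _ := by gcongr
  refine (sum_le_sum hinner).trans ?_
  rw [← sum_mul]
  have htail := sum_tail_rpow (9 * E.δ) (by linarith) (K0 i) (2 ^ (i + 1)) (K0_pos i)
  have hK := inv_sqrt_K0 i
  have h1 : ∑ k ∈ Ioc (K0 i) (2 ^ (i + 1)), (k : ℝ) ^ (-2 + 2 * (9 * E.δ)) ≤
      4 * (2 : ℝ) ^ (-((i : ℝ) / 200)) := by
    refine htail.trans ?_
    rw [show (2 : ℝ) / Real.sqrt (K0 i) = 2 * (1 / Real.sqrt (K0 i)) by ring]
    linarith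
  have h2 := hh_le E.δ (by linarith) i
  have h3 : (hh E.δ i : ℝ) / 2 ^ i ≤ (2 : ℝ) ^ ((1 / 2 - E.δ) * i) / 2 ^ i :=
    div_le_div_of_nonneg_right h2 (by positivity)
  have h4 : (2 : ℝ) ^ ((1 / 2 - E.δ) * i) / 2 ^ i = (2 : ℝ) ^ ((-(1 / 2) - E.δ) * i) := by
    rw [← Real.rpow_natCast 2 i, ← Real.rpow_sub (by norm_num)]
    congr 1
    ring
  rw [h4] at h3
  set W0 : ℝ := (2 : ℝ) ^ (-(1 / 2 + E.δ / 2) * i) with hW0
  have hW00 : 0 < W0 := by positivity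
  have ht : (2 : ℝ) ^ (-((i : ℝ) / 200)) * ((2 : ℝ) ^ ((-(1 / 2) - E.δ) * i) *
      (2 : ℝ) ^ (9 * E.δ * i)) ≤ W0 * (2 : ℝ) ^ (-(1 / 400 * (i : ℝ))) := by
    rw [hW0, ← Real.rpow_add (by norm_num), ← Real.rpow_add (by norm_num),
      ← Real.rpow_add (by norm_num)]
    apply Real.rpow_le_rpow_of_exponent_le (by norm_num)
    nlinarith
  have hfin : 16 * (i + 2) * (W0 * (2 : ℝ) ^ (-(1 / 400 * (i : ℝ)))) ≤ E.w i / 512 := by
    rw [w_eq, ← hW0, div_div, le_div_iff₀ (by positivity)]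
    have h5 : (0 : ℝ) < (2 : ℝ) ^ (-(1 / 400 * (i : ℝ))) := by positivity
    have h6 : 16 * ((i : ℝ) + 2) * ((i : ℝ) ^ 40 * 512) * (2 : ℝ) ^ (-(1 / 400 * (i : ℝ))) ≤ 1 := by
      refine le_trans ?_ (hJ i (by omega))
      have h7 : (16 : ℝ) * ((i : ℝ) + 2) * ((i : ℝ) ^ 40 * 512) ≤ 48 * 512 * (i : ℝ) ^ 41 := by
        have h8 : (0 : ℝ) < (i : ℝ) ^ 40 := by positivity
        have h9 : (i : ℝ) ^ 41 = i * (i : ℝ) ^ 40 := by ring
        rw [h9]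
        nlinarith
      exact mul_le_mul_of_nonneg_right h7 h5.le
    calc 16 * ((i : ℝ) + 2) * (W0 * (2 : ℝ) ^ (-(1 / 400 * (i : ℝ)))) * ((i : ℝ) ^ 40 * 512)
        = W0 * (16 * ((i : ℝ) + 2) * ((i : ℝ) ^ 40 * 512) * (2 : ℝ) ^ (-(1 / 400 * (i : ℝ)))) := by
          ring
      _ ≤ W0 * 1 := mul_le_mul_of_nonneg_left h6 hW00.le
      _ = W0 := mul_one _
  calc (∑ k ∈ Ioc (K0 i) (2 ^ (i + 1)), (k : ℝ) ^ (-2 + 2 * (9 * E.δ))) *
        (((hh E.δ i : ℝ) / 2 ^ i) * (2 * (2 * (2 : ℝ) ^ (9 * E.δ * i) * (i + 2))))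
      ≤ (4 * (2 : ℝ) ^ (-((i : ℝ) / 200))) * (((2 : ℝ) ^ ((-(1 / 2) - E.δ) * i)) *
          (2 * (2 * (2 : ℝ) ^ (9 * E.δ * i) * (i + 2)))) := by
        apply mul_le_mul h1 _ (by positivity) (by positivity)
        exact mul_le_mul_of_nonneg_right h3 (by positivity)
    _ = 16 * (i + 2) * ((2 : ℝ) ^ (-((i : ℝ) / 200)) * ((2 : ℝ) ^ ((-(1 / 2) - E.δ) * i) *
          (2 : ℝ) ^ (9 * E.δ * i))) := by ring
    _ ≤ 16 * (i + 2) * (W0 * (2 : ℝ) ^ (-(1 / 400 * (i : ℝ)))) :=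
        mul_le_mul_of_nonneg_left ht (by positivity)
    _ ≤ _ := hfin

/-- the main estimate -/
theorem Tf_est (R : ℕ) (hR : 2 ^ 200 ≤ R) : ∃ J : ℕ, 1 ≤ J ∧ ∀ j : ℕ, J ≤ j → ∀ i : ℕ, j ≤ i →
    ∀ a N : ℕ, 2 ^ i ≤ a → a ≤ N → N ≤ 2 ^ (i + 1) → N - a ≤ hh E.δ i →
    ∀ (p h : ℕ → ℕ → ℝ) (c : ℝ), 0 ≤ c →
    (∀ k n : ℕ, 2 ≤ k → k < R → p k n = 0 ∧ h k n = 0) →
    (∀ k n : ℕ, 2 ≤ k → 1 ≤ n → |p k n| ≤ c * ((k : ℝ) ^ (-2 + 2 * (9 * E.δ)) * sg E j n)) →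
    (∀ k n : ℕ, 2 ≤ k → 1 ≤ n → |h k n| ≤ c * ((k ^ 2 * n : ℕ) : ℝ) ^ (-1 + 9 * E.δ)) →
    |Tf j i a N p h| ≤ c * (E.w i / 128) := by
  obtain ⟨J1, hJ1, hA⟩ := partA E R hR
  obtain ⟨J2, hJ2, hB⟩ := partB E
  obtain ⟨J3, hJ3, hC⟩ := partC E
  refine ⟨J1 + J2 + J3, by omega, fun j hj i hi a N ha haN hN hlen p h c hc hz hp hhb => ?_⟩
  have hN0 : 2 ^ i ≤ N := ha.trans haN
  have ha1 : a ≤ 2 ^ (i + 1) := haN.trans hN
  have h2i : (0 : ℝ) < 2 ^ i := by positivity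
  -- pointwise
  have hpt : ∀ k ∈ Icc 2 (2 ^ (i + 1)),
      |ph j i a k * ∑ n ∈ Ioc (a / k ^ 2) (N / k ^ 2), p k n +
        (1 - ph j i a k) * ∑ n ∈ Ioc (a / k ^ 2) (N / k ^ 2), h k n +
        (ph j i N k - ph j i a k) * ∑ n ∈ Icc 1 (N / k ^ 2), (p k n - h k n)| ≤
      c * (if j < i ∧ R ≤ k ∧ k ≤ K0 (i + 1) then (k : ℝ) ^ (-2 + 2 * (9 * E.δ)) *
          ∑ n ∈ Ioc (a / k ^ 2) (N / k ^ 2), sg E j n else 0) +
      c * (if K0 i < k then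
          ∑ n ∈ Ioc (a / k ^ 2) (N / k ^ 2), ((k ^ 2 * n : ℕ) : ℝ) ^ (-1 + 9 * E.δ) else 0) +
      c * (if K0 i < k then ((hh E.δ i : ℝ) / 2 ^ i) *
        ∑ n ∈ Icc 1 (N / k ^ 2), ((k : ℝ) ^ (-2 + 2 * (9 * E.δ)) * sg E j n +
        ((k ^ 2 * n : ℕ) : ℝ) ^ (-1 + 9 * E.δ)) else 0) := by
    intro k hk
    rw [mem_Icc] at hk
    have hk2 := hk.1
    obtain ⟨r0, r1⟩ := ph_range j i a k ha ha1
    have hn1 : ∀ n ∈ Ioc (a / k ^ 2) (N / k ^ 2), 1 ≤ n := by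
      intro n hn
      rw [mem_Ioc] at hn
      exact Nat.succ_le_of_lt (lt_of_le_of_lt (Nat.zero_le _) hn.1)
    have hsg0 : ∀ n, 0 ≤ sg E j n := sg_nonneg E j
    -- first
    have t1 : |ph j i a k * ∑ n ∈ Ioc (a / k ^ 2) (N / k ^ 2), p k n| ≤
        c * (if j < i ∧ R ≤ k ∧ k ≤ K0 (i + 1) then (k : ℝ) ^ (-2 + 2 * (9 * E.δ)) *
          ∑ n ∈ Ioc (a / k ^ 2) (N / k ^ 2), sg E j n else 0) := by
      have hb : |∑ n ∈ Ioc (a / k ^ 2) (N / k ^ 2), p k n| ≤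
          c * ((k : ℝ) ^ (-2 + 2 * (9 * E.δ)) * ∑ n ∈ Ioc (a / k ^ 2) (N / k ^ 2), sg E j n) := by
        refine (abs_sum_le_sum_abs _ _).trans ?_
        rw [mul_sum, mul_sum]
        exact sum_le_sum fun n hn => hp k n hk2 (hn1 n hn)
      split_ifs with hcond
      · rw [abs_mul, abs_of_nonneg r0]
        calc ph j i a k * |∑ n ∈ Ioc (a / k ^ 2) (N / k ^ 2), p k n|
            ≤ 1 * |∑ n ∈ Ioc (a / k ^ 2) (N / k ^ 2), p k n| :=
              mul_le_mul_of_nonneg_right r1 (abs_nonneg _)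
          _ ≤ _ := by rw [one_mul]; exact hb
      · rw [mul_zero]
        apply le_of_eq
        rw [abs_eq_zero]
        by_cases hkR : k < R
        · rw [sum_eq_zero fun n _ => (hz k n hk2 hkR).1, mul_zero]
        by_cases hji : j < i
        · have hK : K0 (i + 1) < k := by
            by_contra hcon
            exact hcond ⟨hji, by omega, by omega⟩
          rw [ph_high j i a k hji hK, zero_mul]
        · -- `i = j`: the slopes vanish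
          have hij : i = j := by omega
          subst hij
          have h0 : ∑ n ∈ Ioc (a / k ^ 2) (N / k ^ 2), p k n = 0 := by
            refine sum_eq_zero fun n hn => ?_
            have h3 := hp k n hk2 (hn1 n hn)
            have h4 : sg E i n = 0 := by
              unfold sg
              rw [if_pos]
              rw [mem_Ioc] at hn
              have h5 : N / k ^ 2 ≤ 2 ^ i := by
                apply Nat.div_le_of_le_mul
                calc N ≤ 2 ^ (i + 1) := hN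
                  _ = 2 * 2 ^ i := by rw [pow_succ]; ring
                  _ ≤ k ^ 2 * 2 ^ i := Nat.mul_le_mul_right _ (by nlinarith)
              omega
            rw [h4, mul_zero, mul_zero] at h3
            exact abs_eq_zero.1 (le_antisymm h3 (abs_nonneg _))
          rw [h0, mul_zero]
    -- second
    have t2 : |(1 - ph j i a k) * ∑ n ∈ Ioc (a / k ^ 2) (N / k ^ 2), h k n| ≤
        c * (if K0 i < k then
          ∑ n ∈ Ioc (a / k ^ 2) (N / k ^ 2), ((k ^ 2 * n : ℕ) : ℝ) ^ (-1 + 9 * E.δ) else 0) := by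
      split_ifs with hK
      · rw [abs_mul, abs_of_nonneg (by linarith : (0 : ℝ) ≤ 1 - ph j i a k)]
        calc (1 - ph j i a k) * |∑ n ∈ Ioc (a / k ^ 2) (N / k ^ 2), h k n|
            ≤ 1 * |∑ n ∈ Ioc (a / k ^ 2) (N / k ^ 2), h k n| :=
              mul_le_mul_of_nonneg_right (by linarith) (abs_nonneg _)
          _ ≤ _ := by
              rw [one_mul, mul_sum]
              exact (abs_sum_le_sum_abs _ _).trans (sum_le_sum fun n hn => hhb k n hk2 (hn1 n hn))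
      · rw [ph_low j i a k (by omega)]
        simp
    -- third
    have t3 : |(ph j i N k - ph j i a k) * ∑ n ∈ Icc 1 (N / k ^ 2), (p k n - h k n)| ≤
        c * (if K0 i < k then ((hh E.δ i : ℝ) / 2 ^ i) *
        ∑ n ∈ Icc 1 (N / k ^ 2), ((k : ℝ) ^ (-2 + 2 * (9 * E.δ)) * sg E j n +
        ((k ^ 2 * n : ℕ) : ℝ) ^ (-1 + 9 * E.δ)) else 0) := by
      split_ifs with hK
      · rw [abs_mul]
        have h3 := ph_diff j i N a k haN
        have h4 : ((N - a : ℕ) : ℝ) / 2 ^ i ≤ (hh E.δ i : ℝ) / 2 ^ i := by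
          apply div_le_div_of_nonneg_right _ h2i.le
          exact_mod_cast hlen
        have h5 : |∑ n ∈ Icc 1 (N / k ^ 2), (p k n - h k n)| ≤
            c * ∑ n ∈ Icc 1 (N / k ^ 2), ((k : ℝ) ^ (-2 + 2 * (9 * E.δ)) * sg E j n +
              ((k ^ 2 * n : ℕ) : ℝ) ^ (-1 + 9 * E.δ)) := by
          refine (abs_sum_le_sum_abs _ _).trans ?_
          rw [mul_sum]
          refine sum_le_sum fun n hn => ?_
          rw [mem_Icc] at hn
          have h6 := hp k n hk2 hn.1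
          have h7 := hhb k n hk2 hn.1
          have h8 := abs_sub (p k n) (h k n)
          linarith
        calc |ph j i N k - ph j i a k| * |∑ n ∈ Icc 1 (N / k ^ 2), (p k n - h k n)|
            ≤ ((hh E.δ i : ℝ) / 2 ^ i) *
              (c * ∑ n ∈ Icc 1 (N / k ^ 2), ((k : ℝ) ^ (-2 + 2 * (9 * E.δ)) * sg E j n +
              ((k ^ 2 * n : ℕ) : ℝ) ^ (-1 + 9 * E.δ))) :=
              mul_le_mul (h3.trans h4) h5 (abs_nonneg _) (by positivity)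
          _ = _ := by ring
      · rw [ph_low j i a k (by omega), ph_low j i N k (by omega)]
        simp
    refine (abs_add_le _ _).trans (add_le_add ((abs_add_le _ _).trans (add_le_add t1 t2)) t3)
  unfold Tf
  refine (abs_sum_le_sum_abs _ _).trans ((sum_le_sum hpt).trans ?_)
  rw [sum_add_distrib, sum_add_distrib, ← mul_sum, ← mul_sum, ← mul_sum, ← sum_filter,
    ← sum_filter, ← sum_filter]
  have hsub : (Icc 2 (2 ^ (i + 1))).filter (fun k => K0 i < k) ⊆ Ioc (K0 i) (2 ^ (i + 1)) := by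
    intro k hk
    rw [mem_filter, mem_Icc] at hk
    rw [mem_Ioc]
    omega
  have s1 : ∑ k ∈ (Icc 2 (2 ^ (i + 1))).filter (fun k => j < i ∧ R ≤ k ∧ k ≤ K0 (i + 1)),
      (k : ℝ) ^ (-2 + 2 * (9 * E.δ)) * ∑ n ∈ Ioc (a / k ^ 2) (N / k ^ 2), sg E j n ≤
      E.w i / 512 := by
    by_cases hji : j < i
    · refine le_trans (sum_le_sum_of_subset_of_nonneg ?_ ?_) (hA j (by omega) i hji a N ha haN hlen)
      · intro k hk
        rw [mem_filter, mem_Icc] at hk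
        rw [mem_Ioc]
        omega
      · intro k _ _
        exact mul_nonneg (by positivity) (sum_nonneg fun n _ => sg_nonneg E j n)
    · rw [filter_false_of_mem (fun k _ hk => hji hk.1), sum_empty]
      have := E.w_nonneg i
      positivity
  have s2 : ∑ k ∈ (Icc 2 (2 ^ (i + 1))).filter (fun k => K0 i < k),
      ∑ n ∈ Ioc (a / k ^ 2) (N / k ^ 2), ((k ^ 2 * n : ℕ) : ℝ) ^ (-1 + 9 * E.δ) ≤ E.w i / 512 := by
    refine le_trans (sum_le_sum_of_subset_of_nonneg hsub fun k _ _ => ?_)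
      (hB i (by omega) a N ha haN hN hlen)
    exact sum_nonneg fun n _ => by positivity
  have s3 : ∑ k ∈ (Icc 2 (2 ^ (i + 1))).filter (fun k => K0 i < k), ((hh E.δ i : ℝ) / 2 ^ i) *
      ∑ n ∈ Icc 1 (N / k ^ 2), ((k : ℝ) ^ (-2 + 2 * (9 * E.δ)) * sg E j n +
        ((k ^ 2 * n : ℕ) : ℝ) ^ (-1 + 9 * E.δ)) ≤ E.w i / 512 := by
    refine le_trans (sum_le_sum_of_subset_of_nonneg hsub fun k _ _ => ?_)
      (hC j i (by omega) (by omega) N hN)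
    refine mul_nonneg (by positivity) (sum_nonneg fun n _ => ?_)
    have := sg_nonneg E j n
    positivity
  have hw := E.w_nonneg i
  calc c * _ + c * _ + c * _ ≤ c * (E.w i / 512) + c * (E.w i / 512) + c * (E.w i / 512) :=
        add_le_add (add_le_add (mul_le_mul_of_nonneg_left s1 hc) (mul_le_mul_of_nonneg_left s2 hc))
          (mul_le_mul_of_nonneg_left s3 hc)
    _ ≤ c * (E.w i / 128) := by nlinarith

end Pool.Agent.X115.CMO
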