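import Pool.Agent.X115.CMO.PartC
import Pool.Agent.X115.CMO.Solve

/-!
# The completely multiplicative functions attached to the unknowns
-/

set_option autoImplicit false

namespace Pool.Agent.X115.CMO

open Finset Filter Topology
open Pool.Agent.W76.MO
open scoped Classical

variable (E : Env)

/-- bound for the sizes of the perturbations at the primes -/
def PrimeB (j : ℕ) : Prop := (∀ p, 0 ≤ E.gu j p) ∧ (∀ p, 0 ≤ E.gh j p) ∧
  ∀ p : ℕ, p.Prime → 1 / (p : ℝ) + 2 * E.g j p ≤ (p : ℝ) ^ (-1 + 9 * E.δ)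

lemma primeB (hGB : E.GBounds) : ∃ J : ℕ, ∀ j : ℕ, J ≤ j → PrimeB E j := by
  have hδ := E.hδ
  obtain ⟨J, hJ, hGB⟩ := hGB
  refine ⟨J, fun j hj => ?_⟩
  obtain ⟨_, hu0, hh0, hgu, hgh, hguU, hghq, _, _⟩ := hGB j hj
  refine ⟨hu0, hh0, fun p hp => ?_⟩
  have hp0 : (0 : ℝ) < p := by exact_mod_cast hp.pos
  have hp1 : (1 : ℝ) ≤ p := by exact_mod_cast hp.one_le
  have key : 1 + 2 * (p * E.g j p) ≤ (p : ℝ) ^ (9 * E.δ) := by
    unfold Env.g
    by_cases h : E.gh j p = 0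
    · rw [h, add_zero]
      by_cases h2 : E.gu j p = 0
      · rw [h2, mul_zero, mul_zero, add_zero]
        exact Real.one_le_rpow hp1 (by positivity)
      · obtain ⟨h3, h4⟩ := hguU p (hgu p h2)
        refine h4.trans ?_
        have h5 : (2 : ℝ) ^ (E.δ / 2 * Env.sc p) / (Env.sc p : ℝ) ^ 35 ≤
            (2 : ℝ) ^ (E.δ / 2 * Env.sc p) := by
          rcases Nat.eq_zero_or_pos (Env.sc p) with h6 | h6
          · rw [h6]
            simp
          · exact div_le_self (by positivity) (one_le_pow₀ (by exact_mod_cast h6))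
        refine h5.trans ?_
        have h6 : (2 : ℝ) ^ (Env.sc p : ℝ) ≤ p := by
          rw [Real.rpow_natCast]
          have h7 := (sc_spec p hp.two_le).1.le
          exact_mod_cast h7
        calc (2 : ℝ) ^ (E.δ / 2 * Env.sc p) = ((2 : ℝ) ^ (Env.sc p : ℝ)) ^ (E.δ / 2) := by
              rw [← Real.rpow_mul (by norm_num)]; congr 1; ring
          _ ≤ (p : ℝ) ^ (E.δ / 2) := Real.rpow_le_rpow (by positivity) h6 (by positivity)
          _ ≤ (p : ℝ) ^ (9 * E.δ) := Real.rpow_le_rpow_of_exponent_le hp1 (by linarith)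
    · obtain ⟨_, h2, _⟩ := hgh p h
      have h3 : E.gu j p = 0 := by
        by_contra h4
        exact h2 (hgu p h4)
      rw [h3, zero_add]
      exact (hghq p h).2
  have e : (p : ℝ) ^ (-1 + 9 * E.δ) = (1 / p) * (p : ℝ) ^ (9 * E.δ) := by
    rw [Real.rpow_add hp0, Real.rpow_neg hp0.le, Real.rpow_one, one_div]
  rw [e]
  calc 1 / (p : ℝ) + 2 * E.g j p = (1 / p) * (1 + 2 * (p * E.g j p)) := by field_simp
    _ ≤ (1 / p) * (p : ℝ) ^ (9 * E.δ) := mul_le_mul_of_nonneg_left key (by positivity)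

lemma ff_prime (j R : ℕ) (z : ℕ × ℕ → ℝ) (p : ℕ) (hp : p.Prime) :
    E.ff R j z p = if R ≤ p then E.gz j z p - 1 / (p : ℝ) else 0 := by
  unfold Env.ff Env.fz
  rw [hp.primeFactors, prod_singleton]
  have h : (Squarefree p ∧ Rough (R : ℝ) p) ↔ R ≤ p := by
    constructor
    · rintro ⟨_, h⟩
      exact_mod_cast h p hp dvd_rfl
    · intro h
      refine ⟨hp.squarefree, fun q hq hqp => ?_⟩
      have : q = p := (Nat.prime_dvd_prime_iff_eq hq hp).1 hqp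
      rw [this]
      exact_mod_cast h
  by_cases h1 : R ≤ p
  · rw [if_pos h1, if_pos (h.2 h1)]
  · rw [if_neg h1, if_neg (fun h2 => h1 (h.1 h2))]

/-- the completely multiplicative function -/
noncomputable def FF (j R : ℕ) (z : ℕ × ℕ → ℝ) (n : ℕ) : ℝ := Fc (E.ff R j z) n

/-- the slopes of the correction -/
noncomputable def sy (j : ℕ) (y : ℕ × ℕ → ℝ) (n : ℕ) : ℝ := sg E j n * y (Env.sc n, E.kx n)

/-- `F(k)^2 s(n)` -/
noncomputable def pp (j R : ℕ) (z y : ℕ × ℕ → ℝ) (k n : ℕ) : ℝ := FF E j R z k ^ 2 * sy E j y n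

/-- `F(k)^2 f(n)` -/
noncomputable def hq (j R : ℕ) (z : ℕ × ℕ → ℝ) (k n : ℕ) : ℝ := FF E j R z k ^ 2 * E.ff R j z n

lemma FF_bound (j R : ℕ) (hB : PrimeB E j) (z z' : ℕ × ℕ → ℝ) (ε : ℝ) (hε : 0 ≤ ε)
    (hz : ∀ x, |z x| ≤ 1) (hz' : ∀ x, |z' x| ≤ 1) (hzz : ∀ x, |z x - z' x| ≤ ε) (n : ℕ)
    (hn : n ≠ 0) :
    |FF E j R z n| ≤ (n : ℝ) ^ (-1 + 9 * E.δ) ∧
    |FF E j R z n - FF E j R z' n| ≤ ε * (n : ℝ) ^ (-1 + 9 * E.δ) := by
  obtain ⟨hu, hh0, hB⟩ := hB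
  have hg : ∀ p, 0 ≤ E.g j p := fun p => add_nonneg (hu p) (hh0 p)
  have h1 : ∀ w : ℕ × ℕ → ℝ, (∀ x, |w x| ≤ 1) → ∀ p : ℕ, p.Prime →
      |E.ff R j w p| ≤ 1 / (p : ℝ) + E.g j p := by
    intro w hw p hp
    rw [ff_prime E j R w p hp]
    have h2 := E.gz_le j w 1 hw hu p
    have h3 : (0 : ℝ) ≤ 1 / (p : ℝ) := by positivity
    split_ifs
    · have h4 := abs_sub (E.gz j w p) (1 / (p : ℝ))
      rw [abs_of_nonneg h3] at h4
      linarith
    · rw [abs_zero]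
      exact add_nonneg h3 (hg p)
  refine Fc_bound (E.ff R j z) (E.ff R j z') (E.g j) ε (9 * E.δ) hε (fun p _ => hg p) (h1 z hz)
    (h1 z' hz') ?_ hB n hn
  intro p hp
  rw [ff_prime E j R z p hp, ff_prime E j R z' p hp]
  split_ifs
  · have e : E.gz j z p - 1 / (p : ℝ) - (E.gz j z' p - 1 / (p : ℝ)) =
        E.gz j (fun i => z i - z' i) p := by
      rw [← E.gz_sub]; ring
    rw [e]
    exact E.gz_le j _ ε hzz hu p
  · rw [sub_zero, abs_zero]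
    exact mul_nonneg hε (hg p)

lemma FF_small (j R : ℕ) (z : ℕ × ℕ → ℝ) (k : ℕ) (hk : 2 ≤ k) (hkR : k < R) :
    FF E j R z k = 0 := by
  obtain ⟨p, hp, hpk⟩ := Nat.exists_prime_and_dvd (show k ≠ 1 by omega)
  have hmem : p ∈ k.primeFactorsList := (Nat.mem_primeFactorsList (by omega)).2 ⟨hp, hpk⟩
  have hple : p ≤ k := Nat.le_of_dvd (by omega) hpk
  have h0 : E.ff R j z p = 0 := by
    rw [ff_prime E j R z p hp, if_neg (by omega)]
  unfold FF Fc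
  apply List.prod_eq_zero
  rw [List.mem_map]
  exact ⟨p, hmem, h0⟩

lemma ff_sqfree (j R : ℕ) (z : ℕ × ℕ → ℝ) (n : ℕ) (hn : Squarefree n) :
    E.ff R j z n = FF E j R z n := by
  unfold FF
  rw [Fc_squarefree _ n hn]
  by_cases h : Rough (R : ℝ) n
  · have h1 : E.ff R j z n = E.fz j z n := by
      unfold Env.ff
      rw [if_pos ⟨hn, h⟩]
    rw [h1]
    unfold Env.fz
    refine prod_congr rfl fun p hp => ?_
    have hpp := Nat.prime_of_mem_primeFactors hp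
    have h2 : (R : ℝ) ≤ p := h p hpp (Nat.dvd_of_mem_primeFactors hp)
    rw [ff_prime E j R z p hpp, if_pos (by exact_mod_cast h2)]
  · have h1 : E.ff R j z n = 0 := by
      unfold Env.ff
      rw [if_neg (fun h2 => h h2.2)]
    rw [h1]
    unfold Rough at h
    push Not at h
    obtain ⟨p, hp, hpn, hlt⟩ := h
    symm
    apply prod_eq_zero (Nat.mem_primeFactors.2 ⟨hp, hpn, hn.ne_zero⟩)
    rw [ff_prime E j R z p hp, if_neg]
    intro h2
    have : (R : ℝ) ≤ p := by exact_mod_cast h2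
    linarith

lemma ff_nsq (j R : ℕ) (z : ℕ × ℕ → ℝ) (n : ℕ) (hn : ¬ Squarefree n) : E.ff R j z n = 0 := by
  unfold Env.ff
  rw [if_neg (fun h => hn h.1)]

lemma hq_bound (j R : ℕ) (hB : PrimeB E j) (z z' : ℕ × ℕ → ℝ) (ε : ℝ) (hε : 0 ≤ ε)
    (hz : ∀ x, |z x| ≤ 1) (hz' : ∀ x, |z' x| ≤ 1) (hzz : ∀ x, |z x - z' x| ≤ ε) (k n : ℕ)
    (hk : 1 ≤ k) (hn : 1 ≤ n) :
    |hq E j R z k n| ≤ ((k ^ 2 * n : ℕ) : ℝ) ^ (-1 + 9 * E.δ) ∧
    |hq E j R z k n - hq E j R z' k n| ≤ ε * ((k ^ 2 * n : ℕ) : ℝ) ^ (-1 + 9 * E.δ) := by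
  by_cases hsq : Squarefree n
  · have e : ∀ w : ℕ × ℕ → ℝ, hq E j R w k n = FF E j R w (k ^ 2 * n) := by
      intro w
      unfold hq
      rw [ff_sqfree E j R w n hsq]
      unfold FF
      rw [Fc_sq_mul _ k n (by omega) (by omega)]
    rw [e z, e z']
    exact FF_bound E j R hB z z' ε hε hz hz' hzz (k ^ 2 * n)
      (Nat.mul_ne_zero (pow_ne_zero 2 (by omega)) (by omega))
  · have e : ∀ w : ℕ × ℕ → ℝ, hq E j R w k n = 0 := by
      intro w
      unfold hq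
      rw [ff_nsq E j R w n hsq, mul_zero]
    rw [e z, e z', sub_zero, abs_zero]
    exact ⟨by positivity, by positivity⟩

lemma sy_bound (j : ℕ) (y : ℕ × ℕ → ℝ) (ε : ℝ) (hy : ∀ x, |y x| ≤ ε) (n : ℕ) :
    |sy E j y n| ≤ ε * sg E j n := by
  unfold sy
  rw [abs_mul, abs_of_nonneg (sg_nonneg E j n), mul_comm]
  exact mul_le_mul_of_nonneg_right (hy _) (sg_nonneg E j n)

lemma pp_bound (j R : ℕ) (hB : PrimeB E j) (z z' y y' : ℕ × ℕ → ℝ) (ε : ℝ) (hε : 0 ≤ ε)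
    (hz : ∀ x, |z x| ≤ 1) (hz' : ∀ x, |z' x| ≤ 1) (hzz : ∀ x, |z x - z' x| ≤ ε)
    (hy : ∀ x, |y x| ≤ 1) (hyy : ∀ x, |y x - y' x| ≤ ε) (k n : ℕ)
    (hk : 1 ≤ k) :
    |pp E j R z y k n| ≤ (k : ℝ) ^ (-2 + 2 * (9 * E.δ)) * sg E j n ∧
    |pp E j R z y k n - pp E j R z' y' k n| ≤
      2 * ε * ((k : ℝ) ^ (-2 + 2 * (9 * E.δ)) * sg E j n) := by
  have hk0 : (0 : ℝ) < k := by exact_mod_cast hk
  have e : ((k ^ 2 : ℕ) : ℝ) ^ (-1 + 9 * E.δ) = (k : ℝ) ^ (-2 + 2 * (9 * E.δ)) := by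
    push_cast
    rw [← Real.rpow_natCast (k : ℝ) 2, ← Real.rpow_mul hk0.le]
    congr 1
    push_cast
    ring
  have hF := FF_bound E j R hB z z' ε hε hz hz' hzz (k ^ 2) (pow_ne_zero 2 (by omega))
  have hF' := FF_bound E j R hB z' z ε hε hz' hz
    (fun x => by rw [abs_sub_comm]; exact hzz x) (k ^ 2) (pow_ne_zero 2 (by omega))
  rw [e] at hF hF'
  have e2 : ∀ w : ℕ × ℕ → ℝ, FF E j R w (k ^ 2) = FF E j R w k ^ 2 := fun w =>
    Fc_sq _ k (by omega)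
  rw [e2, e2] at hF
  rw [e2] at hF'
  have hs := sy_bound E j y 1 hy n
  rw [one_mul] at hs
  have hs2 : |sy E j y n - sy E j y' n| ≤ ε * sg E j n := by
    have e3 : sy E j y n - sy E j y' n = sy E j (fun x => y x - y' x) n := by
      unfold sy
      ring
    rw [e3]
    exact sy_bound E j _ ε hyy n
  have hA : 0 ≤ (k : ℝ) ^ (-2 + 2 * (9 * E.δ)) := by positivity
  have hsg := sg_nonneg E j n
  unfold pp
  refine ⟨?_, ?_⟩
  · rw [abs_mul]
    exact mul_le_mul hF.1 hs (abs_nonneg _) hA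
  · have e4 : FF E j R z k ^ 2 * sy E j y n - FF E j R z' k ^ 2 * sy E j y' n =
        (FF E j R z k ^ 2 - FF E j R z' k ^ 2) * sy E j y n +
        FF E j R z' k ^ 2 * (sy E j y n - sy E j y' n) := by ring
    rw [e4]
    refine (abs_add_le _ _).trans ?_
    rw [abs_mul, abs_mul]
    have t1 := mul_le_mul hF.2 hs (abs_nonneg _) (mul_nonneg hε hA)
    have t2 := mul_le_mul hF'.1 hs2 (abs_nonneg _) hA
    calc _ ≤ ε * (k : ℝ) ^ (-2 + 2 * (9 * E.δ)) * sg E j n +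
          (k : ℝ) ^ (-2 + 2 * (9 * E.δ)) * (ε * sg E j n) := add_le_add t1 t2
      _ = _ := by ring

end Pool.Agent.X115.CMO
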