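import Pool.Agent.X115.CMO.State

/-!
# The system of equations and its solution
-/

set_option autoImplicit false

namespace Pool.Agent.X115.CMO

open Finset Filter Topology
open Pool.Agent.W76.MO
open scoped Classical

variable (E : Env)

/-- Lipschitz estimate for the cells -/
lemma cell_lip (R j : ℕ) (hKj : E.Key R j) (hj1 : 1 ≤ j) (hRj : R ≤ 2 ^ (j - 1))
    (hJ4 : ∀ i : ℕ, j ≤ i → (R : ℝ) ≤ (2 : ℝ) ^ (E.τ * i))
    (hHC : ∀ i : ℕ, j ≤ i → ∀ k ∈ E.Bad i, E.cH / 2 * hh E.δ i / i ≤ ((E.Host j i k).card : ℝ))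
    (hgu : ∀ p : ℕ, E.gu j p ≠ 0 → E.U j p)
    (hgh : ∀ q : ℕ, E.gh j q ≠ 0 → E.H j q ∧ ¬ E.U j q ∧ 1 ≤ q * E.gh j q)
    (z z' : ℕ × ℕ → ℝ) (ε : ℝ) (hε : 0 ≤ ε)
    (hz : ∀ x, |z x| ≤ 1) (hz' : ∀ x, |z' x| ≤ 1) (hzz : ∀ x, |z x - z' x| ≤ ε)
    (i k : ℕ) (hji : j ≤ i) (hk : k < nc E.δ i) :
    |∑ n ∈ E.cs R i k, E.fz j z n - ∑ n ∈ E.cs R i k, E.fz j z' n -
      E.w i * (z (i, k) - z' (i, k))| ≤ ε * (E.w i / 4) := by
  have hu0 := hKj.u0
  have hh0 := hKj.h0
  have hcssq : ∀ i k n, n ∈ E.cs R i k → Squarefree n := fun i k n hn => by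
    unfold Env.cs at hn
    exact (mem_filter.1 hn).2.1
  have htau := hKj.tau_cell i k hji hk
  have hi1 : 1 ≤ i := hj1.trans hji
  have hir : (0 : ℝ) < i := by exact_mod_cast hi1
  have hhpos : (0 : ℝ) < hh E.δ i := by exact_mod_cast hh_pos E.δ i
  have hRi : R ≤ 2 ^ i := by
    refine hRj.trans (Nat.pow_le_pow_right (by norm_num) (by omega))
  by_cases hkb : k ∈ E.Bad i
  · -- bad cell
    have hne : (E.Host j i k).Nonempty := by
      rw [← Finset.card_pos]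
      have h3 := hHC i hji k hkb
      have h4 : 0 < E.cH / 2 * hh E.δ i / i := by
        have := E.hcH
        positivity
      exact_mod_cast h4.trans_le h3
    have hsub : E.Host j i k ⊆ E.cs R i k := by
      intro n hn
      unfold Env.Host at hn
      rw [mem_filter] at hn
      unfold Env.cs
      rw [mem_filter]
      refine ⟨hn.1, hn.2.2.2.1, ?_⟩
      intro p hp hpn
      exact (hJ4 i hji).trans (hn.2.2.2.2.1 p hp hpn)
    have h := lip_sum (E.cs R i k) (E.Host j i k) hsub hne (E.fz j z) (E.fz j z') (E.tau j) ε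
      (E.w i) (z (i, k) - z' (i, k))
      (fun n hn _ => (E.fz_bound j n z z' ε hu0 hz hz' hzz (hcssq _ _ n hn)).2)
      (fun n hn => E.host_lip j z z' ε hu0 hgu (fun q hq => (hgh q hq).1) hz hz' hzz i k n hji hkb hn)
    refine h.trans (mul_le_mul_of_nonneg_left ?_ hε)
    linarith
  · -- good cell
    have hcard : 0 < (((cell E.δ i k).filter E.isU).card : ℝ) := by
      have h3 : ¬ ((((cell E.δ i k).filter E.isU).card : ℝ) < E.cU * hh E.δ i / (i : ℝ) ^ 4) := by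
        intro h3
        apply hkb
        unfold Env.Bad
        rw [mem_filter, mem_range]
        exact ⟨hk, h3⟩
      rw [not_lt] at h3
      have := E.hcU
      exact lt_of_lt_of_le (by positivity) h3
    have hne : ((cell E.δ i k).filter E.isU).Nonempty := by
      rw [← Finset.card_pos]
      exact_mod_cast hcard
    have hpr : ∀ p ∈ (cell E.δ i k).filter E.isU, p.Prime := fun p hp =>
      E.u_prime p (mem_filter.1 hp).2
    have hsub : (cell E.δ i k).filter E.isU ⊆ E.cs R i k := by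
      intro p hp
      have hpp := hpr p hp
      rw [mem_filter] at hp
      unfold Env.cs
      rw [mem_filter]
      refine ⟨hp.1, hpp.squarefree, ?_⟩
      intro q hq hqp
      have : q = p := (Nat.prime_dvd_prime_iff_eq hq hpp).1 hqp
      subst this
      have h4 := (cell_loc E.δ E.hδ i k q hk hp.1).1
      have : R ≤ q := by omega
      exact_mod_cast this
    have h := lip_sum (E.cs R i k) ((cell E.δ i k).filter E.isU) hsub hne (E.fz j z) (E.fz j z')
      (E.tau j) ε (E.w i) (z (i, k) - z' (i, k))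
      (fun n hn _ => (E.fz_bound j n z z' ε hu0 hz hz' hzz (hcssq _ _ n hn)).2)
      (fun p hp => by
        have hp' := mem_filter.1 hp
        exact E.prime_lip j p (hpr p hp) z z' (i, k) _ ε
          (fun y => (E.gz_good j y (fun q hq => (hgh q hq).2.1) hh0 i k p hji hk hkb hp'.1 hp'.2).1)
          (E.gz_good j z (fun q hq => (hgh q hq).2.1) hh0 i k p hji hk hkb hp'.1 hp'.2).2)
    refine h.trans (mul_le_mul_of_nonneg_left ?_ hε)
    linarith

/-- Lipschitz estimate for the first block -/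
lemma first_lip (R j : ℕ) (hKj : E.Key R j) (hj1 : 1 ≤ j) (hRj : R ≤ 2 ^ (j - 1))
    (hUBne : (E.UB j).Nonempty) (hUBp : ∀ p ∈ E.UB j, p.Prime)
    (htau1 : ∑ n ∈ Env.A0 R j, E.tau j n ≤ 8 * j + 8 * j / 4)
    (hgh : ∀ q : ℕ, E.gh j q ≠ 0 → E.H j q ∧ ¬ E.U j q ∧ 1 ≤ q * E.gh j q)
    (z z' : ℕ × ℕ → ℝ) (ε : ℝ) (hε : 0 ≤ ε)
    (hz : ∀ x, |z x| ≤ 1) (hz' : ∀ x, |z' x| ≤ 1) (hzz : ∀ x, |z x - z' x| ≤ ε) :
    |∑ n ∈ Env.A0 R j, E.fz j z n - ∑ n ∈ Env.A0 R j, E.fz j z' n -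
      8 * j * (z (j - 1, 0) - z' (j - 1, 0))| ≤ ε * (8 * j / 4) := by
  have hu0 := hKj.u0
  have hA0sq : ∀ n ∈ Env.A0 R j, Squarefree n := fun n hn => by
    unfold Env.A0 at hn
    exact (mem_filter.1 hn).2.1
  have hsub : E.UB j ⊆ Env.A0 R j := by
    intro p hp
    have hpp := hUBp p hp
    unfold Env.UB at hp
    rw [mem_filter, mem_Ioc] at hp
    unfold Env.A0
    rw [mem_filter, mem_Icc]
    refine ⟨⟨hpp.one_le, hp.1.2⟩, hpp.squarefree, ?_⟩
    intro q hq hqp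
    have : q = p := (Nat.prime_dvd_prime_iff_eq hq hpp).1 hqp
    subst this
    have : R ≤ q := by omega
    exact_mod_cast this
  have h := lip_sum (Env.A0 R j) (E.UB j) hsub hUBne (E.fz j z) (E.fz j z') (E.tau j) ε (8 * j)
    (z (j - 1, 0) - z' (j - 1, 0))
    (fun n hn _ => (E.fz_bound j n z z' ε hu0 hz hz' hzz (hA0sq n hn)).2)
    (fun p hp => E.prime_lip j p (hUBp p hp) z z' (j - 1, 0) _ ε
      (fun y => (E.gz_first j y (fun q hq => (hgh q hq).2.1) p hp).1)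
      (E.gz_first j z (fun q hq => (hgh q hq).2.1) p hp).2)
  refine h.trans (mul_le_mul_of_nonneg_left ?_ hε)
  linarith

/-- solution of the system -/
structure Sol2 (R j : ℕ) (z y : ℕ × ℕ → ℝ) : Prop where
  z1 : ∀ x, |z x| ≤ 1
  y1 : ∀ x, |y x| ≤ 1
  R2 : 2 ≤ R
  j10 : 10 ≤ j
  key : E.Key R j
  prime : PrimeB E j
  est : ∀ i : ℕ, j ≤ i → ∀ a N : ℕ, 2 ^ i ≤ a → a ≤ N → N ≤ 2 ^ (i + 1) → N - a ≤ hh E.δ i →
    |Tf j i a N (pp E j R z y) (hq E j R z)| ≤ E.w i / 128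
  first : ∑ n ∈ Env.A0 R j, E.fz j z n = 0
  cells : ∀ i k : ℕ, j ≤ i → k < nc E.δ i →
    ∑ n ∈ E.cs R i k, E.fz j z n = E.w i / 16 * y (i, k)
  corr : ∀ i k : ℕ, j ≤ i → k < nc E.δ i → E.w i / 16 * y (i, k) +
    Tf j i (2 ^ i + k * hh E.δ i) (2 ^ i + (k + 1) * hh E.δ i) (pp E j R z y) (hq E j R z) = 0

theorem system2 (hGB : E.GBounds) (hHC : E.HCount)
    (hKey : ∃ R₀ : ℕ, ∀ R : ℕ, R₀ ≤ R → ∃ J : ℕ, ∀ j : ℕ, J ≤ j → E.Key R j) :
    ∃ (R j : ℕ) (z y : ℕ × ℕ → ℝ), Sol2 E R j z y := by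
  obtain ⟨R₀, hKey⟩ := hKey
  obtain ⟨R, hR0, hR200⟩ : ∃ R : ℕ, R₀ ≤ R ∧ 2 ^ 200 ≤ R := ⟨max R₀ (2 ^ 200), le_max_left _ _, le_max_right _ _⟩
  obtain ⟨J1, hKey⟩ := hKey R hR0
  obtain ⟨J2, hJ2, hfirst⟩ := E.tau_first hGB R
  obtain ⟨J3, hHC⟩ := hHC
  obtain ⟨J4, hJ4⟩ := ge_of_rpow_ge E.τ E.hτ R
  obtain ⟨J6, hPB⟩ := primeB E hGB
  obtain ⟨J5, hJ5, hGB⟩ := hGB
  obtain ⟨J7, hJ7, hT⟩ := Tf_est E R hR200
  obtain ⟨j, hj⟩ : ∃ j : ℕ, j = J1 + J2 + J3 + J4 + J5 + J6 + J7 + R + 10 := ⟨_, rfl⟩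
  have hR2 : 2 ≤ R := le_trans (by norm_num) hR200
  have hKj := hKey j (by omega)
  obtain ⟨hUBne, hUBp, htau1⟩ := hfirst j (by omega)
  obtain ⟨hUB, hu0, hh0, hgu, hgh, hguU, hghq, hsum1, hsum2⟩ := hGB j (by omega)
  have hPBj := hPB j (by omega)
  have hTj := hT j (by omega)
  have hj1 : 1 ≤ j := by omega
  have hjr : (1 : ℝ) ≤ j := by exact_mod_cast hj1
  have hRj : R ≤ 2 ^ (j - 1) := by
    have h1 : R ≤ j - 1 := by omega
    exact h1.trans (Nat.lt_two_pow_self).le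
  have hJ4' : ∀ i : ℕ, j ≤ i → (R : ℝ) ≤ (2 : ℝ) ^ (E.τ * i) := fun i hi => hJ4 i (by omega)
  have hHC' := hHC j (by omega)
  -- cell geometry
  have hgeo : ∀ i k : ℕ, k < nc E.δ i → 2 ^ i ≤ 2 ^ i + k * hh E.δ i ∧
      2 ^ i + k * hh E.δ i ≤ 2 ^ i + (k + 1) * hh E.δ i ∧
      2 ^ i + (k + 1) * hh E.δ i ≤ 2 ^ (i + 1) ∧
      2 ^ i + (k + 1) * hh E.δ i - (2 ^ i + k * hh E.δ i) ≤ hh E.δ i := by
    intro i k hk
    have hmul := nc_mul E.δ E.hδ i
    have hlt : (k + 1) * hh E.δ i ≤ nc E.δ i * hh E.δ i := Nat.mul_le_mul_right _ hk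
    have h1 : (k + 1) * hh E.δ i = k * hh E.δ i + hh E.δ i := by ring
    rw [pow_succ]
    omega
  -- the estimates for the error functional
  have hTb : ∀ z y : ℕ × ℕ → ℝ, (∀ x, |z x| ≤ 1) → (∀ x, |y x| ≤ 1) →
      ∀ i : ℕ, j ≤ i → ∀ a N : ℕ, 2 ^ i ≤ a → a ≤ N → N ≤ 2 ^ (i + 1) → N - a ≤ hh E.δ i →
      |Tf j i a N (pp E j R z y) (hq E j R z)| ≤ E.w i / 128 := by
    intro z y hz hy i hi a N ha haN hN hlen
    have h := hTj i hi a N ha haN hN hlen (pp E j R z y) (hq E j R z) 1 (by norm_num) ?_ ?_ ?_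
    · rw [one_mul] at h; exact h
    · intro k n hk hkR
      unfold pp hq
      rw [FF_small E j R z k hk hkR]
      simp
    · intro k n hk hn
      rw [one_mul]
      exact (pp_bound E j R hPBj z z y y 0 le_rfl hz hz (fun x => by simp) hy (fun x => by simp)
        k n (by omega)).1
    · intro k n hk hn
      rw [one_mul]
      exact (hq_bound E j R hPBj z z 0 le_rfl hz hz (fun x => by simp) k n (by omega) hn).1
  have hTl : ∀ z z' y y' : ℕ × ℕ → ℝ, ∀ ε : ℝ, 0 ≤ ε → (∀ x, |z x| ≤ 1) → (∀ x, |z' x| ≤ 1) →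
      (∀ x, |y x| ≤ 1) → (∀ x, |z x - z' x| ≤ ε) → (∀ x, |y x - y' x| ≤ ε) →
      ∀ i : ℕ, j ≤ i → ∀ a N : ℕ, 2 ^ i ≤ a → a ≤ N → N ≤ 2 ^ (i + 1) → N - a ≤ hh E.δ i →
      |Tf j i a N (pp E j R z y) (hq E j R z) - Tf j i a N (pp E j R z' y') (hq E j R z')| ≤
        2 * ε * (E.w i / 128) := by
    intro z z' y y' ε hε hz hz' hy hzz hyy i hi a N ha haN hN hlen
    rw [Tf_sub]
    apply hTj i hi a N ha haN hN hlen _ _ (2 * ε) (by positivity)
    · intro k n hk hkR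
      unfold pp hq
      rw [FF_small E j R z k hk hkR, FF_small E j R z' k hk hkR]
      simp
    · intro k n hk hn
      exact (pp_bound E j R hPBj z z' y y' ε hε hz hz' hzz hy hyy k n (by omega)).2
    · intro k n hk hn
      have h1 := (hq_bound E j R hPBj z z' ε hε hz hz' hzz k n (by omega) hn).2
      have h2 : (0 : ℝ) ≤ ((k ^ 2 * n : ℕ) : ℝ) ^ (-1 + 9 * E.δ) := by positivity
      nlinarith
  -- the system
  let F : ((ℕ × ℕ) ⊕ (ℕ × ℕ) → ℝ) → (ℕ × ℕ) ⊕ (ℕ × ℕ) → ℝ := fun v s =>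
    match s with
    | Sum.inl x =>
      if x = (j - 1, 0) then ∑ n ∈ Env.A0 R j, E.fz j (fun u => v (Sum.inl u)) n
      else if j ≤ x.1 ∧ x.2 < nc E.δ x.1 then
        ∑ n ∈ E.cs R x.1 x.2, E.fz j (fun u => v (Sum.inl u)) n - E.w x.1 / 16 * v (Sum.inr x)
      else v (Sum.inl x)
    | Sum.inr x =>
      if j ≤ x.1 ∧ x.2 < nc E.δ x.1 then E.w x.1 / 16 * v (Sum.inr x) +
        Tf j x.1 (2 ^ x.1 + x.2 * hh E.δ x.1) (2 ^ x.1 + (x.2 + 1) * hh E.δ x.1)
          (pp E j R (fun u => v (Sum.inl u)) (fun u => v (Sum.inr u)))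
          (hq E j R (fun u => v (Sum.inl u)))
      else v (Sum.inr x)
  let W : (ℕ × ℕ) ⊕ (ℕ × ℕ) → ℝ := fun s =>
    match s with
    | Sum.inl x => if x = (j - 1, 0) then 8 * j else if j ≤ x.1 ∧ x.2 < nc E.δ x.1 then E.w x.1 else 1
    | Sum.inr x => if j ≤ x.1 ∧ x.2 < nc E.δ x.1 then E.w x.1 / 16 else 1
  have hW : ∀ s, 0 < W s := by
    intro s
    rcases s with x | x
    · simp only [W]
      split_ifs with h1 h2
      · positivity
      · exact E.w_pos _ (hj1.trans h2.1)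
      · norm_num
    · simp only [W]
      split_ifs with h2
      · have := E.w_pos _ (hj1.trans h2.1)
        positivity
      · norm_num
  have hA0sq : ∀ n ∈ Env.A0 R j, Squarefree n := fun n hn => by
    unfold Env.A0 at hn
    exact (mem_filter.1 hn).2.1
  have hcssq : ∀ i k n, n ∈ E.cs R i k → Squarefree n := fun i k n hn => by
    unfold Env.cs at hn
    exact (mem_filter.1 hn).2.1
  have hzero : (fun u : ℕ × ℕ => (0 : (ℕ × ℕ) ⊕ (ℕ × ℕ) → ℝ) (Sum.inl u)) = 0 := rfl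
  obtain ⟨v, hv1, hv0⟩ := solve F W hW (by
    intro s
    rcases s with x | x
    · simp only [F, W, hzero]
      split_ifs with h1 h2
      · calc |∑ n ∈ Env.A0 R j, E.fz j 0 n| ≤ ∑ n ∈ Env.A0 R j, |E.fz j 0 n| :=
              abs_sum_le_sum_abs _ _
          _ = ∑ n ∈ Env.A0 R j, 1 / (n : ℝ) := sum_congr rfl fun n hn => E.fz_zero j n hu0 (hA0sq n hn)
          _ ≤ ∑ n ∈ Icc (1 : ℕ) (2 ^ j), 1 / (n : ℝ) := by
              apply sum_le_sum_of_subset_of_nonneg (filter_subset _ _)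
              intro n _ _
              positivity
          _ ≤ 1 + j := Env.harm_le j
          _ ≤ 8 * j / 2 := by linarith
      · simp only [Pi.zero_apply, mul_zero, sub_zero]
        calc |∑ n ∈ E.cs R x.1 x.2, E.fz j 0 n| ≤ ∑ n ∈ E.cs R x.1 x.2, |E.fz j 0 n| :=
              abs_sum_le_sum_abs _ _
          _ = ∑ n ∈ E.cs R x.1 x.2, 1 / (n : ℝ) :=
              sum_congr rfl fun n hn => E.fz_zero j n hu0 (hcssq _ _ n hn)
          _ ≤ E.w x.1 / 4 := hKj.inv_cell x.1 x.2 h2.1 h2.2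
          _ ≤ E.w x.1 / 2 := by
              have := E.w_nonneg x.1
              linarith
      · simp
    · simp only [F, W]
      split_ifs with h2
      · obtain ⟨g1, g2, g3, g4⟩ := hgeo x.1 x.2 h2.2
        have h3 := hTb (fun u : ℕ × ℕ => (0 : (ℕ × ℕ) ⊕ (ℕ × ℕ) → ℝ) (Sum.inl u))
          (fun u : ℕ × ℕ => (0 : (ℕ × ℕ) ⊕ (ℕ × ℕ) → ℝ) (Sum.inr u)) (fun x => by simp)
          (fun x => by simp) x.1 h2.1 _ _ g1 g2 g3 g4
        rw [Pi.zero_apply, mul_zero, zero_add]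
        refine h3.trans ?_
        have := E.w_nonneg x.1
        linarith
      · simp) (by
    intro v v' ε hε hv hv' hvv s
    rcases s with x | x
    · simp only [F, W]
      split_ifs with h1 h2
      · subst h1
        have h3 := first_lip E R j hKj hj1 hRj hUBne hUBp htau1 hgh (fun u => v (Sum.inl u))
          (fun u => v' (Sum.inl u)) ε hε (fun x => hv _) (fun x => hv' _) (fun x => hvv _)
        refine h3.trans (mul_le_mul_of_nonneg_left ?_ hε)
        have : (0 : ℝ) ≤ j := by linarith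
        linarith
      · obtain ⟨i, k⟩ := x
        simp only at h2 ⊢
        have h3 := cell_lip E R j hKj hj1 hRj hJ4' hHC' hgu hgh (fun u => v (Sum.inl u))
          (fun u => v' (Sum.inl u)) ε hε (fun x => hv _) (fun x => hv' _) (fun x => hvv _)
          i k h2.1 h2.2
        have h4 := hvv (Sum.inr (i, k))
        have hw := E.w_nonneg i
        have e : ∑ n ∈ E.cs R i k, E.fz j (fun u => v (Sum.inl u)) n - E.w i / 16 * v (Sum.inr (i, k)) -
            (∑ n ∈ E.cs R i k, E.fz j (fun u => v' (Sum.inl u)) n -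
              E.w i / 16 * v' (Sum.inr (i, k))) -
            E.w i * (v (Sum.inl (i, k)) - v' (Sum.inl (i, k))) =
            (∑ n ∈ E.cs R i k, E.fz j (fun u => v (Sum.inl u)) n -
              ∑ n ∈ E.cs R i k, E.fz j (fun u => v' (Sum.inl u)) n -
              E.w i * (v (Sum.inl (i, k)) - v' (Sum.inl (i, k)))) -
            E.w i / 16 * (v (Sum.inr (i, k)) - v' (Sum.inr (i, k))) := by ring
        rw [e]
        refine (abs_sub _ _).trans ?_
        rw [abs_mul, abs_of_nonneg (by positivity : 0 ≤ E.w i / 16)]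
        have h5 : E.w i / 16 * |v (Sum.inr (i, k)) - v' (Sum.inr (i, k))| ≤ E.w i / 16 * ε :=
          mul_le_mul_of_nonneg_left h4 (by positivity)
        have h6 : 0 ≤ ε * E.w i := mul_nonneg hε hw
        linarith
      · simp only [one_mul, sub_self, abs_zero]
        positivity
    · simp only [F, W]
      split_ifs with h2
      · obtain ⟨i, k⟩ := x
        simp only at h2 ⊢
        obtain ⟨g1, g2, g3, g4⟩ := hgeo i k h2.2
        have h3 := hTl (fun u => v (Sum.inl u)) (fun u => v' (Sum.inl u)) (fun u => v (Sum.inr u))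
          (fun u => v' (Sum.inr u)) ε hε (fun x => hv _) (fun x => hv' _) (fun x => hv _)
          (fun x => hvv _) (fun x => hvv _) i h2.1 _ _ g1 g2 g3 g4
        have hw := E.w_nonneg i
        have h6 : 0 ≤ ε * E.w i := mul_nonneg hε hw
        have e : ∀ A B C D T T' : ℝ, A * B + T - (A * D + T') - A * (B - D) = T - T' := by
          intros; ring
        rw [e _ _ 0]
        refine h3.trans ?_
        linarith
      · simp only [one_mul, sub_self, abs_zero]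
        positivity)
  refine ⟨R, j, fun u => v (Sum.inl u), fun u => v (Sum.inr u), ?_⟩
  refine ⟨fun x => hv1 _, fun x => hv1 _, hR2, by omega, hKj, hPBj, ?_, ?_, ?_, ?_⟩
  · intro i hi a N ha haN hN hlen
    exact hTb _ _ (fun x => hv1 _) (fun x => hv1 _) i hi a N ha haN hN hlen
  · have h := hv0 (Sum.inl (j - 1, 0))
    simp only [F] at h
    simpa using h
  · intro i k hi hk
    have h := hv0 (Sum.inl (i, k))
    simp only [F] at h
    have hne : ¬ ((i, k) : ℕ × ℕ) = (j - 1, 0) := by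
      intro h1
      have : i = j - 1 := (Prod.ext_iff.1 h1).1
      omega
    rw [if_neg hne, if_pos ⟨hi, hk⟩] at h
    linarith
  · intro i k hi hk
    have h := hv0 (Sum.inr (i, k))
    simp only [F] at h
    rw [if_pos ⟨hi, hk⟩] at h
    exact h

end Pool.Agent.X115.CMO
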